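import Mathlib

/-! Project LB (helper347), subtask LB/ROUND, proved by helper937: rounding a fractional selection
with error `3` (Beck–Fiala argument). -/

namespace Pool.Agent.N937.LBROUND

open Finset

set_option linter.unusedVariables false
set_option linter.unusedSectionVars false

section

variable {E P V : Type} [Fintype E] [Fintype P] [Fintype V] [DecidableEq E] [DecidableEq P]
  [DecidableEq V] (part : E → P) (a b : E → V)

/-- number of ends of `e` at `v` -/
def inc (v : V) (e : E) : ℕ := (if a e = v then 1 else 0) + (if b e = v then 1 else 0)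

/-- load of `x` at `v` -/
def load (x : E → ℝ) (v : V) : ℝ := ∑ e, (inc a b v e : ℝ) * x e

open Classical in
/-- support load -/
noncomputable def supp (x : E → ℝ) (v : V) : ℕ := ∑ e ∈ univ.filter (fun e => 0 < x e), inc a b v e

open Classical in
/-- fractional edges -/
noncomputable def frac (x : E → ℝ) : Finset E := univ.filter (fun e => 0 < x e ∧ x e < 1)

lemma sum_inc (e : E) : ∑ v, inc a b v e = 2 := by
  unfold inc
  rw [Finset.sum_add_distrib]
  simp

lemma le_one {x : E → ℝ} (hx : ∀ e, 0 ≤ x e)
    (h1 : ∀ p, ∑ e ∈ univ.filter (fun e => part e = p), x e = 1) (e : E) : x e ≤ 1 := by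
  rw [← h1 (part e)]
  exact Finset.single_le_sum (f := x) (fun i _ => hx i) (by simp)

/-- the integral case -/
lemma integral_case {L : ℕ} {x : E → ℝ} (hx : ∀ e, 0 ≤ x e)
    (h1 : ∀ p, ∑ e ∈ univ.filter (fun e => part e = p), x e = 1)
    (hL : ∀ v, load a b x v ≤ L ∨ supp a b x v ≤ L + 3) (hF : frac x = ∅) :
    ∃ s : P → E, (∀ p, part (s p) = p) ∧ ∀ v, (univ.filter (fun p => a (s p) = v)).card +
      (univ.filter (fun p => b (s p) = v)).card ≤ L + 3 := by
  classical
  have h01 : ∀ e, x e = 0 ∨ x e = 1 := by
    intro e
    by_contra hc
    push Not at hc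
    have : e ∈ frac x := by
      unfold frac
      simp only [mem_filter, mem_univ, true_and]
      exact ⟨lt_of_le_of_ne (hx e) (Ne.symm hc.1), lt_of_le_of_ne (le_one part hx h1 e) hc.2⟩
    rw [hF] at this
    simp at this
  have hex : ∀ p, ∃ e, part e = p ∧ x e = 1 := by
    intro p
    by_contra hc
    push Not at hc
    have : ∑ e ∈ univ.filter (fun e => part e = p), x e = 0 := by
      apply Finset.sum_eq_zero
      intro e he
      simp only [mem_filter, mem_univ, true_and] at he
      rcases h01 e with h | h
      · exact h
      · exact absurd h (hc e he)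
    rw [h1 p] at this
    norm_num at this
  choose s hs1 hs2 using hex
  refine ⟨s, hs1, ?_⟩
  intro v
  have hinj : Function.Injective s := by
    intro p q h
    rw [← hs1 p, ← hs1 q, h]
  have hcard : (univ.filter (fun p => a (s p) = v)).card + (univ.filter (fun p => b (s p) = v)).card
      = ∑ p, inc a b v (s p) := by
    unfold inc
    rw [Finset.sum_add_distrib, Finset.card_filter, Finset.card_filter]
  rw [hcard]
  rcases hL v with h | h
  · have hle : ((∑ p, inc a b v (s p) : ℕ) : ℝ) ≤ load a b x v := by
      unfold load
      push_cast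
      have e1 : ∑ p, (inc a b v (s p) : ℝ) = ∑ p, (inc a b v (s p) : ℝ) * x (s p) := by
        apply Finset.sum_congr rfl
        intro p _
        rw [hs2 p, mul_one]
      rw [e1]
      have e2 : ∑ p, (inc a b v (s p) : ℝ) * x (s p)
          = ∑ e ∈ univ.image s, (inc a b v e : ℝ) * x e := by
        rw [Finset.sum_image]
        intro p _ q _ h
        exact hinj h
      rw [e2]
      apply Finset.sum_le_sum_of_subset_of_nonneg (Finset.subset_univ _)
      intro e _ _
      exact mul_nonneg (Nat.cast_nonneg _) (hx e)
    have h3 : ((∑ p, inc a b v (s p) : ℕ) : ℝ) ≤ (L : ℝ) := le_trans hle h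
    have h4 : (∑ p, inc a b v (s p)) ≤ L := by exact_mod_cast h3
    omega
  · refine le_trans ?_ h
    unfold supp
    have e2 : ∑ p, inc a b v (s p) = ∑ e ∈ univ.image s, inc a b v e := by
      rw [Finset.sum_image]
      intro p _ q _ h
      exact hinj h
    rw [e2]
    apply Finset.sum_le_sum_of_subset
    intro e he
    simp only [mem_image, mem_univ, true_and] at he
    obtain ⟨p, rfl⟩ := he
    simp [hs2 p]


/-- existence of a direction -/
lemma direction {L : ℕ} {x : E → ℝ} (hx : ∀ e, 0 ≤ x e)
    (h1 : ∀ p, ∑ e ∈ univ.filter (fun e => part e = p), x e = 1)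
    (hL : ∀ v, load a b x v ≤ L ∨ supp a b x v ≤ L + 3) (hF : frac x ≠ ∅) :
    ∃ y : E → ℝ, (∃ e, y e ≠ 0) ∧ (∀ e, e ∉ frac x → y e = 0) ∧
      (∀ p, ∑ e ∈ univ.filter (fun e => part e = p), y e = 0) ∧
      ∀ v, load a b x v ≤ L → ¬ (supp a b x v ≤ L + 3) → load a b y v = 0 := by
  classical
  set F := frac x with hFdef
  have hFm : ∀ e, e ∈ F ↔ 0 < x e ∧ x e < 1 := by
    intro e
    simp [hFdef, frac]
  set P' : Finset P := F.image part with hP'
  set A' : Finset V := univ.filter (fun v => (¬ (supp a b x v ≤ L + 3)) ∧
    0 < ∑ e ∈ F, inc a b v e) with hA'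
  -- counting for the parts
  have hcP : 2 * P'.card ≤ F.card := by
    have h2 : ∀ p ∈ P', 2 ≤ (F.filter (fun e => part e = p)).card := by
      intro p hp
      rw [hP', mem_image] at hp
      obtain ⟨e0, he0, hpe⟩ := hp
      by_contra hc
      have hone : (F.filter (fun e => part e = p)).card ≤ 1 := by omega
      have hothers : ∀ e, part e = p → e ≠ e0 → x e = 0 := by
        intro e hep hne
        by_contra hxe
        have hpos : 0 < x e := lt_of_le_of_ne (hx e) (Ne.symm hxe)
        have hsum := h1 p
        have hle : x e + x e0 ≤ 1 := by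
          rw [← hsum]
          have : ∑ i ∈ ({e, e0} : Finset E), x i ≤ ∑ e ∈ univ.filter (fun e => part e = p), x e := by
            apply Finset.sum_le_sum_of_subset_of_nonneg
            · intro i hi
              simp only [mem_insert, mem_singleton] at hi
              rcases hi with rfl | rfl
              · simp [hep]
              · simp [hpe]
            · intro i _ _
              exact hx i
          rwa [Finset.sum_pair hne] at this
        have h0 := (hFm e0).1 he0
        have heF : e ∈ F := (hFm e).2 ⟨hpos, by linarith [h0.1]⟩
        have : ({e, e0} : Finset E) ⊆ F.filter (fun e => part e = p) := by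
          intro i hi
          simp only [mem_insert, mem_singleton] at hi
          rcases hi with rfl | rfl
          · simp [heF, hep]
          · simp [he0, hpe]
        have h3 := Finset.card_le_card this
        rw [Finset.card_pair hne] at h3
        omega
      have hs : ∑ e ∈ univ.filter (fun e => part e = p), x e = x e0 := by
        apply Finset.sum_eq_single_of_mem
        · simp [hpe]
        · intro e he hne
          simp only [mem_filter, mem_univ, true_and] at he
          exact hothers e he hne
      rw [h1 p] at hs
      have := ((hFm e0).1 he0).2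
      linarith
    have h3 : F.card = ∑ p ∈ P', (F.filter (fun e => part e = p)).card :=
      Finset.card_eq_sum_card_image part F
    rw [h3]
    calc 2 * P'.card = ∑ p ∈ P', 2 := by simp [mul_comm]
      _ ≤ _ := Finset.sum_le_sum h2
  -- counting for the vertices
  have hcA : 5 * A'.card ≤ 2 * F.card := by
    have h5 : ∀ v ∈ A', 5 ≤ ∑ e ∈ F, inc a b v e := by
      intro v hv
      rw [hA', mem_filter] at hv
      obtain ⟨_, hs, hf⟩ := hv
      have hload : load a b x v ≤ L := (hL v).resolve_right hs
      -- split of the support
      set O : Finset E := univ.filter (fun e => x e = 1) with hO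
      have hsplit : supp a b x v = ∑ e ∈ O, inc a b v e + ∑ e ∈ F, inc a b v e := by
        unfold supp
        rw [← Finset.sum_union]
        · apply Finset.sum_congr _ (fun _ _ => rfl)
          ext e
          simp only [mem_filter, mem_univ, true_and, mem_union, hO, hFm]
          constructor
          · intro h
            rcases eq_or_lt_of_le (le_one part hx h1 e) with h' | h'
            · exact Or.inl h'
            · exact Or.inr ⟨h, h'⟩
          · rintro (h | h)
            · rw [h]; norm_num
            · exact h.1
        · rw [Finset.disjoint_left]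
          intro e he hf
          simp only [hO, mem_filter, mem_univ, true_and] at he
          have := ((hFm e).1 hf).2
          linarith
      have hlow : ((∑ e ∈ O, inc a b v e : ℕ) : ℝ) < L := by
        refine lt_of_lt_of_le ?_ hload
        have hO1 : ((∑ e ∈ O, inc a b v e : ℕ) : ℝ) = ∑ e ∈ O, (inc a b v e : ℝ) * x e := by
          push_cast
          apply Finset.sum_congr rfl
          intro e he
          simp only [hO, mem_filter, mem_univ, true_and] at he
          rw [he, mul_one]
        have hFpos : 0 < ∑ e ∈ F, (inc a b v e : ℝ) * x e := by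
          obtain ⟨e, he, hne⟩ := Finset.exists_ne_zero_of_sum_ne_zero (Nat.pos_iff_ne_zero.1 hf)
          apply Finset.sum_pos'
          · intro i _
            exact mul_nonneg (Nat.cast_nonneg _) (hx i)
          · refine ⟨e, he, mul_pos ?_ ((hFm e).1 he).1⟩
            exact_mod_cast Nat.pos_of_ne_zero hne
        have hdis : Disjoint O F := by
          rw [Finset.disjoint_left]
          intro e he hf
          simp only [hO, mem_filter, mem_univ, true_and] at he
          have := ((hFm e).1 hf).2
          linarith
        have hsub : ∑ e ∈ O, (inc a b v e : ℝ) * x e + ∑ e ∈ F, (inc a b v e : ℝ) * x e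
            ≤ load a b x v := by
          unfold load
          rw [← Finset.sum_union hdis]
          apply Finset.sum_le_sum_of_subset_of_nonneg (Finset.subset_univ _)
          intro e _ _
          exact mul_nonneg (Nat.cast_nonneg _) (hx e)
        rw [hO1]
        linarith
      have hlow' : (∑ e ∈ O, inc a b v e) < L := by exact_mod_cast hlow
      omega
    calc 5 * A'.card = ∑ v ∈ A', 5 := by simp [mul_comm]
      _ ≤ ∑ v ∈ A', ∑ e ∈ F, inc a b v e := Finset.sum_le_sum h5
      _ ≤ ∑ v, ∑ e ∈ F, inc a b v e :=
          Finset.sum_le_sum_of_subset (Finset.subset_univ _)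
      _ = ∑ e ∈ F, ∑ v, inc a b v e := Finset.sum_comm
      _ = 2 * F.card := by
          rw [Finset.sum_congr rfl (fun e _ => sum_inc a b e)]
          simp [mul_comm]
  have hFpos : 0 < F.card := Finset.card_pos.2 (Finset.nonempty_iff_ne_empty.2 hF)
  have hlt : P'.card + A'.card < F.card := by omega
  -- the linear map
  let Φ : (F → ℝ) →ₗ[ℝ] ((P' → ℝ) × (A' → ℝ)) :=
    { toFun := fun y => (fun p => ∑ e : F, if part e = p then y e else 0,
        fun v => ∑ e : F, (inc a b v e : ℝ) * y e)
      map_add' := by
        intro y z
        ext i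
        · simp only [Pi.add_apply, Prod.fst_add]
          rw [← Finset.sum_add_distrib]
          apply Finset.sum_congr rfl
          intro e _
          split_ifs <;> simp
        · simp only [Pi.add_apply, Prod.snd_add]
          rw [← Finset.sum_add_distrib]
          apply Finset.sum_congr rfl
          intro e _
          ring
      map_smul' := by
        intro c y
        ext i
        · simp only [Pi.smul_apply, Prod.smul_fst, smul_eq_mul, RingHom.id_apply]
          rw [Finset.mul_sum]
          apply Finset.sum_congr rfl
          intro e _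
          split_ifs <;> simp
        · simp only [Pi.smul_apply, Prod.smul_snd, smul_eq_mul, RingHom.id_apply]
          rw [Finset.mul_sum]
          apply Finset.sum_congr rfl
          intro e _
          ring }
  have hrank : Module.finrank ℝ ((P' → ℝ) × (A' → ℝ)) < Module.finrank ℝ (F → ℝ) := by
    rw [Module.finrank_prod, Module.finrank_fintype_fun_eq_card, Module.finrank_fintype_fun_eq_card,
      Module.finrank_fintype_fun_eq_card]
    simpa using hlt
  have hker := LinearMap.ker_ne_bot_of_finrank_lt (f := Φ) hrank
  obtain ⟨y, hy, hy0⟩ := Submodule.exists_mem_ne_zero_of_ne_bot hker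
  rw [LinearMap.mem_ker] at hy
  let Y : E → ℝ := fun e => if h : e ∈ F then y ⟨e, h⟩ else 0
  have hY0 : ∀ e, e ∉ F → Y e = 0 := by
    intro e he
    simp [Y, he]
  have hYF : ∀ e : F, Y e = y e := by
    intro e
    simp [Y]
  have key : ∀ g : E → ℝ, ∑ e, g e * Y e = ∑ e : F, g e * y e := by
    intro g
    have h1 : ∑ e, g e * Y e = ∑ e ∈ F, g e * Y e := by
      symm
      apply Finset.sum_subset (Finset.subset_univ _)
      intro e _ he
      rw [hY0 e he, mul_zero]
    rw [h1, ← Finset.sum_coe_sort F (fun e => g e * Y e)]
    apply Finset.sum_congr rfl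
    intro e _
    rw [hYF]
  refine ⟨Y, ?_, hY0, ?_, ?_⟩
  · by_contra hc
    push Not at hc
    apply hy0
    funext e
    rw [← hYF e]
    exact hc e
  · intro p
    rw [Finset.sum_filter]
    have h2 : ∑ e, (if part e = p then Y e else 0) = ∑ e, (if part e = p then (1 : ℝ) else 0) * Y e := by
      apply Finset.sum_congr rfl
      intro e _
      split_ifs <;> simp
    rw [h2, key]
    by_cases hp : p ∈ P'
    · have h3 := congrFun (congrArg Prod.fst hy) ⟨p, hp⟩
      simp only [Φ, LinearMap.coe_mk, AddHom.coe_mk, Prod.fst_zero, Pi.zero_apply] at h3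
      refine Eq.trans ?_ h3
      apply Finset.sum_congr rfl
      intro e _
      split_ifs <;> simp
    · apply Finset.sum_eq_zero
      intro e _
      have : part e ≠ p := by
        intro h
        apply hp
        rw [hP', mem_image]
        exact ⟨e, e.2, h⟩
      simp [this]
  · intro v hv hs
    unfold load
    rw [key]
    by_cases hvA : v ∈ A'
    · have h3 := congrFun (congrArg Prod.snd hy) ⟨v, hvA⟩
      simpa only [Φ, LinearMap.coe_mk, AddHom.coe_mk, Prod.snd_zero, Pi.zero_apply] using h3
    · have h4 : ∑ e ∈ F, inc a b v e = 0 := by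
        by_contra hne
        apply hvA
        rw [hA', mem_filter]
        exact ⟨mem_univ _, hs, Nat.pos_of_ne_zero hne⟩
      apply Finset.sum_eq_zero
      intro e _
      have h5 : inc a b v e = 0 := by
        have := (Finset.sum_eq_zero_iff (s := F) (f := fun e => inc a b v e)).1 h4 e e.2
        exact this
      simp [h5]

/-- the step and the induction -/
lemma main {L : ℕ} : ∀ (n : ℕ) (x : E → ℝ), (frac x).card = n → (∀ e, 0 ≤ x e) →
    (∀ p, ∑ e ∈ univ.filter (fun e => part e = p), x e = 1) →
    (∀ v, load a b x v ≤ L ∨ supp a b x v ≤ L + 3) →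
    ∃ s : P → E, (∀ p, part (s p) = p) ∧ ∀ v, (univ.filter (fun p => a (s p) = v)).card +
      (univ.filter (fun p => b (s p) = v)).card ≤ L + 3 := by
  classical
  intro n
  induction n using Nat.strong_induction_on with
  | _ n ih =>
  intro x hn hx h1 hL
  by_cases hF : frac x = ∅
  · exact integral_case part a b hx h1 hL hF
  obtain ⟨y, ⟨e1, he1⟩, hy0, hyp, hyv⟩ := direction part a b hx h1 hL hF
  have hFm : ∀ e, e ∈ frac x ↔ 0 < x e ∧ x e < 1 := by
    intro e
    simp [frac]
  -- the set of moving coordinates
  set M : Finset E := univ.filter (fun e => y e ≠ 0) with hM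
  have hMne : M.Nonempty := ⟨e1, by simp [hM, he1]⟩
  have hMF : ∀ e ∈ M, 0 < x e ∧ x e < 1 := by
    intro e he
    rw [hM, mem_filter] at he
    by_contra hc
    exact he.2 (hy0 e (fun h => hc ((hFm e).1 h)))
  let t : E → ℝ := fun e => if 0 < y e then (1 - x e) / y e else x e / (- y e)
  obtain ⟨e0, he0, hmin⟩ := Finset.exists_min_image M t hMne
  have hy00 : y e0 ≠ 0 := by
    rw [hM, mem_filter] at he0
    exact he0.2
  have ht0 : 0 < t e0 := by
    have h := hMF e0 he0
    simp only [t]
    split_ifs with h'
    · exact div_pos (by linarith) h'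
    · have : y e0 < 0 := lt_of_le_of_ne (not_lt.1 h') hy00
      exact div_pos h.1 (by linarith)
  let x' : E → ℝ := fun e => x e + t e0 * y e
  have hbound : ∀ e, 0 ≤ x' e ∧ x' e ≤ 1 := by
    intro e
    by_cases hye : y e = 0
    · simp only [x', hye, mul_zero, add_zero]
      exact ⟨hx e, le_one part hx h1 e⟩
    · have heM : e ∈ M := by simp [hM, hye]
      have h := hMF e heM
      have hm := hmin e heM
      have htt : t e0 ≤ t e := hm
      simp only [x']
      by_cases hpos : 0 < y e
      · have : t e = (1 - x e) / y e := by simp [t, hpos]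
        rw [this, le_div_iff₀ hpos] at htt
        constructor
        · have := mul_pos ht0 hpos
          linarith
        · linarith
      · have hneg : y e < 0 := lt_of_le_of_ne (not_lt.1 hpos) hye
        have : t e = x e / (- y e) := by simp [t, hpos]
        rw [this, le_div_iff₀ (by linarith)] at htt
        constructor
        · linarith
        · have := mul_neg_of_pos_of_neg ht0 hneg
          linarith
  have hend : x' e0 = 0 ∨ x' e0 = 1 := by
    simp only [x']
    by_cases hpos : 0 < y e0
    · right
      have : t e0 = (1 - x e0) / y e0 := by simp [t, hpos]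
      rw [this]
      field_simp
      ring
    · left
      have hneg : y e0 < 0 := lt_of_le_of_ne (not_lt.1 hpos) hy00
      have : t e0 = x e0 / (- y e0) := by simp [t, hpos]
      rw [this]
      field_simp
      ring
  have hpart : ∀ p, ∑ e ∈ univ.filter (fun e => part e = p), x' e = 1 := by
    intro p
    simp only [x']
    rw [Finset.sum_add_distrib, h1 p, ← Finset.mul_sum, hyp p]
    ring
  have hsupp : ∀ e, 0 < x' e → 0 < x e := by
    intro e he
    by_cases hye : y e = 0
    · simpa [x', hye] using he
    · exact (hMF e (by simp [hM, hye])).1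
  have hsub : frac x' ⊂ frac x := by
    rw [Finset.ssubset_iff_of_subset]
    · refine ⟨e0, (hFm e0).2 (hMF e0 he0), ?_⟩
      simp only [frac, mem_filter, mem_univ, true_and, not_and, not_lt]
      intro h
      rcases hend with h' | h'
      · rw [h'] at h
        exact absurd h (lt_irrefl _)
      · exact le_of_eq h'.symm
    · intro e he
      simp only [frac, mem_filter, mem_univ, true_and] at he
      by_cases hye : y e = 0
      · rw [hFm]
        simpa [x', hye] using he
      · exact (hFm e).2 (hMF e (by simp [hM, hye]))
  apply ih (frac x').card (by rw [← hn]; exact Finset.card_lt_card hsub) x' rfl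
    (fun e => (hbound e).1) hpart
  intro v
  by_cases hs : supp a b x v ≤ L + 3
  · right
    refine le_trans ?_ hs
    unfold supp
    apply Finset.sum_le_sum_of_subset
    intro e he
    simp only [mem_filter, mem_univ, true_and] at he ⊢
    exact hsupp e he
  · left
    have hl := (hL v).resolve_right hs
    have h0 := hyv v hl hs
    have : load a b x' v = load a b x v + t e0 * load a b y v := by
      unfold load
      rw [Finset.mul_sum, ← Finset.sum_add_distrib]
      apply Finset.sum_congr rfl
      intro e _
      simp only [x']
      ring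
    rw [this, h0]
    linarith

end

/-- LB/ROUND -/
theorem round {E P V : Type} [Fintype E] [Fintype P] [Fintype V] [DecidableEq E] [DecidableEq P]
    [DecidableEq V] (part : E → P) (a b : E → V) (x : E → ℝ) (hx : ∀ e, 0 ≤ x e)
    (h1 : ∀ p, ∑ e ∈ univ.filter (fun e => part e = p), x e = 1) (L : ℕ)
    (hL : ∀ v, ∑ e ∈ univ.filter (fun e => a e = v), x e +
      ∑ e ∈ univ.filter (fun e => b e = v), x e ≤ L) :
    ∃ s : P → E, (∀ p, part (s p) = p) ∧ ∀ v, (univ.filter (fun p => a (s p) = v)).card +
      (univ.filter (fun p => b (s p) = v)).card ≤ L + 3 := by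
  apply main part a b (frac x).card x rfl hx h1
  intro v
  left
  refine le_trans (le_of_eq ?_) (hL v)
  unfold load inc
  rw [Finset.sum_filter, Finset.sum_filter, ← Finset.sum_add_distrib]
  apply Finset.sum_congr rfl
  intro e _
  push_cast
  split_ifs <;> ring

end Pool.Agent.N937.LBROUND
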