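import Mathlib
import Pool.Agent.N576.MX2.D

set_option autoImplicit false

/-!
# Project MX2, part TWOPOS

(helper937, after the proof of helper576 in the specification)
-/

open Pool.Agent.N576.MX2

namespace Pool.Agent.N937.MX2

noncomputable section

/-- the square root of `De u` -/
def ww (u : ℤ) : ℝ := Real.sqrt (De u)

variable {u : ℤ}

theorem cast_one_le (hu : 1 ≤ u) : (1 : ℝ) ≤ u := by exact_mod_cast hu

theorem De_pos (hu : 1 ≤ u) : 5 ≤ De u := by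
  have := cast_one_le hu
  unfold De
  nlinarith

theorem ww_sq (hu : 1 ≤ u) : ww u ^ 2 = 9 * (u : ℝ) ^ 2 - 4 :=
  Real.sq_sqrt (by have := De_pos hu; unfold De at this; unfold De; linarith)

theorem ww_ge (hu : 1 ≤ u) : 2 ≤ ww u := by
  unfold ww
  apply Real.le_sqrt_of_sq_le
  have := De_pos hu
  linarith

theorem ww_le (hu : 1 ≤ u) : ww u ≤ 3 * u := by
  have h1 := ww_sq hu
  have h2 := ww_ge hu
  have h3 := cast_one_le hu
  nlinarith

theorem la_eq (u : ℤ) : la u = (3 * u + ww u) / 2 := rfl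

theorem la_inv (hu : 1 ≤ u) : (la u)⁻¹ = (3 * u - ww u) / 2 := by
  have h : la u * ((3 * u - ww u) / 2) = 1 := by
    rw [la_eq]
    have := ww_sq hu
    linear_combination (-(1 / 4 : ℝ)) * this
  exact inv_eq_of_mul_eq_one_right h

theorem la_ge (hu : 1 ≤ u) : 5 / 2 ≤ la u := by
  rw [la_eq]
  have h2 := ww_ge hu
  have h3 := cast_one_le hu
  linarith

theorem la_pos (hu : 1 ≤ u) : 0 < la u := by have := la_ge hu; linarith

theorem u_le_la (hu : 1 ≤ u) : 3 / 2 * (u : ℝ) ≤ la u := by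
  rw [la_eq]
  have h2 := ww_ge hu
  linarith

theorem la_le (hu : 1 ≤ u) : la u ≤ 3 * u := by
  rw [la_eq]
  have h2 := ww_le hu
  linarith

theorem logla_ge (hu : 1 ≤ u) : 69 / 100 ≤ Real.log (la u) := by
  have h1 : Real.log 2 ≤ Real.log (la u) :=
    Real.log_le_log (by norm_num) (by have := la_ge hu; linarith)
  have h2 := Real.log_two_gt_d9
  linarith

theorem WW_eq (hu : 1 ≤ u) (i j : ℤ) :
    WW u i j = (3 * u * ((i : ℝ) + j) + ((i : ℝ) - j) * ww u) / 2 := by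
  unfold WW
  rw [la_inv hu, la_eq]
  ring

theorem WW_mul (hu : 1 ≤ u) (i j : ℤ) : WW u i j * WW u j i = NN u i j := by
  rw [WW_eq hu, WW_eq hu]
  have := ww_sq hu
  unfold NN
  push_cast
  linear_combination (-((i : ℝ) - j) ^ 2 / 4) * this

theorem WW_ge (hu : 1 ≤ u) {i j : ℤ} (hi : 1 ≤ i) (hj : 1 ≤ j) : 1 ≤ WW u i j := by
  unfold WW
  have h1 : (1 : ℝ) ≤ i := by exact_mod_cast hi
  have h2 : (1 : ℝ) ≤ j := by exact_mod_cast hj
  have h3 := la_ge hu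
  have h4 : 0 < (la u)⁻¹ := inv_pos.2 (la_pos hu)
  nlinarith

theorem WW_le (hu : 1 ≤ u) {i j : ℤ} (hj : 1 ≤ j) :
    WW u i j ≤ ((i : ℝ) + j) * la u := by
  unfold WW
  have h2 : (1 : ℝ) ≤ j := by exact_mod_cast hj
  have h3 := la_ge hu
  have h4 : (la u)⁻¹ ≤ 1 := inv_le_one_of_one_le₀ (by linarith)
  have h5 : (la u)⁻¹ ≤ la u := by linarith
  nlinarith

theorem run_u {A B : ℤ} (h : RunD u A B) : 1 ≤ u := h.1.trans h.2.1

theorem Xi_ge {A B : ℤ} (h : RunD u A B) : 1 ≤ Xi u A B := by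
  have hu := run_u h
  obtain ⟨h1, h2, h3, h4, -⟩ := h
  unfold Xi
  have a1 : (A : ℝ) ≤ u := by exact_mod_cast h2
  have a2 : (1 : ℝ) ≤ B := by exact_mod_cast h3
  have a3 := u_le_la hu
  have a4 : 3 * (A : ℝ) * (la u)⁻¹ ≤ 2 := by
    rw [← div_eq_mul_inv, div_le_iff₀ (la_pos hu)]
    linarith
  linarith

theorem Xi_le {A B : ℤ} (h : RunD u A B) : Xi u A B ≤ 3 * la u := by
  have hu := run_u h
  obtain ⟨h1, h2, h3, h4, -⟩ := h
  unfold Xi
  have a1 : (1 : ℝ) ≤ A := by exact_mod_cast h1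
  have a2 : (B : ℝ) ≤ u := by exact_mod_cast h4
  have a3 := u_le_la hu
  have a5 := cast_one_le hu
  have a4 : 0 ≤ 3 * (A : ℝ) * (la u)⁻¹ := by
    have := inv_pos.2 (la_pos hu)
    positivity
  nlinarith

theorem X0_pos {A B : ℤ} (h : RunD u A B) : 0 < X0 u A B := by
  unfold X0
  have h1 := Xi_ge h
  have h2 := ww_ge (run_u h)
  have h3 : 0 < Real.sqrt (De u) := by unfold ww at h2; linarith
  apply div_pos (by linarith) h3

theorem tt_eq {A B : ℤ} (h : RunD u A B) (n : ℕ) :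
    2 * tt u A B n = 2 * Real.log (Xi u A B) - Real.log (De u) + 2 * n * Real.log (la u) := by
  have h1 := Xi_ge h
  have h2 := ww_ge (run_u h)
  have h5 := De_pos (run_u h)
  have h3 : 0 < Real.sqrt (De u) := by unfold ww at h2; linarith
  unfold tt X0
  rw [Real.log_div (by linarith) h3.ne', Real.log_sqrt (by linarith)]
  ring

theorem exp_tt {A B : ℤ} (h : RunD u A B) (n : ℕ) :
    Real.exp (-2 * tt u A B n) = De u / (Xi u A B ^ 2 * la u ^ (2 * n)) := by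
  have h1 := Xi_ge h
  have h2 := ww_ge (run_u h)
  have h5 := De_pos (run_u h)
  have h6 := la_pos (run_u h)
  have h7 : -2 * tt u A B n = Real.log (De u) - (2 * Real.log (Xi u A B) +
      (2 * n : ℕ) * Real.log (la u)) := by
    have := tt_eq h n
    push_cast
    linarith
  rw [h7, Real.exp_sub, Real.exp_log (by linarith), Real.exp_add, Real.exp_nat_mul,
    Real.exp_log h6]
  congr 2
  rw [show (2 : ℝ) * Real.log (Xi u A B) = ((2 : ℕ) : ℝ) * Real.log (Xi u A B) by norm_num,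
    Real.exp_nat_mul, Real.exp_log (by linarith)]

theorem GG_eq {A B : ℤ} (h : RunD u A B) (n : ℕ) (i j : ℤ) :
    GG u A B n i j * (Xi u A B ^ 2 * la u ^ (2 * n + 1)) = 4 * WW u i j := by
  have h1 := Xi_ge h
  have h5 := De_pos (run_u h)
  have h6 := la_pos (run_u h)
  have h8 : Xi u A B ≠ 0 := by linarith
  have h9 : De u ≠ 0 := by linarith
  unfold GG WW
  rw [exp_tt h]
  field_simp
  rw [pow_succ]
  ring

/-- the gap condition, multiplicative form -/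
theorem gapm {A B u' A' B' i j i' j' : ℤ} {k k' : ℕ} {H P : ℝ} (hr : RunD u A B)
    (hr' : RunD u' A' B') (hp : PosD u A B k i j u' A' B' k' i' j' H P) :
    |WW u i j * (Xi u' A' B' ^ 2 * la u' ^ (2 * k' + 1)) -
        WW u' i' j' * (Xi u A B ^ 2 * la u ^ (2 * k + 1))| ≤
      Real.exp (-P) * (WW u i j * (Xi u' A' B' ^ 2 * la u' ^ (2 * k' + 1))) := by
  have hX : 0 < Xi u A B ^ 2 * la u ^ (2 * k + 1) := by
    have := Xi_ge hr
    have := la_pos (run_u hr)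
    positivity
  have hX' : 0 < Xi u' A' B' ^ 2 * la u' ^ (2 * k' + 1) := by
    have := Xi_ge hr'
    have := la_pos (run_u hr')
    positivity
  have h1 := GG_eq hr k i j
  have h2 := GG_eq hr' k' i' j'
  have h3 := hp.gap
  set X := Xi u A B ^ 2 * la u ^ (2 * k + 1)
  set X' := Xi u' A' B' ^ 2 * la u' ^ (2 * k' + 1)
  have e1 : WW u i j * X' - WW u' i' j' * X =
      (GG u A B k i j - GG u' A' B' k' i' j') * (X * X' / 4) := by
    linear_combination (-(X' / 4)) * h1 + (X / 4) * h2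
  have e2 : 0 < X * X' / 4 := by positivity
  rw [e1, abs_mul, abs_of_pos e2]
  calc |GG u A B k i j - GG u' A' B' k' i' j'| * (X * X' / 4)
      ≤ GG u A B k i j * Real.exp (-P) * (X * X' / 4) := by gcongr
    _ = Real.exp (-P) * (WW u i j * X') := by
      linear_combination (Real.exp (-P) * X' / 4) * h1

theorem star {A B u' A' B' i j i' j' : ℤ} {k k' : ℕ} (hr : RunD u A B)
    (hr' : RunD u' A' B') (hi : 1 ≤ i) (hj : 1 ≤ j) (hi' : 1 ≤ i') (hj' : 1 ≤ j')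
    (he : WW u i j * Xi u' A' B' ^ 2 * la u' ^ (2 * k' + 1) =
      WW u' i' j' * Xi u A B ^ 2 * la u ^ (2 * k + 1)) :
    2 * (tt u A B k - tt u' A' B' k') = Real.log (WW u i j * De u' / (WW u' i' j' * De u)) +
      Real.log (la u') - Real.log (la u) := by
  have a1 := Xi_ge hr
  have a2 := Xi_ge hr'
  have a3 := la_pos (run_u hr)
  have a4 := la_pos (run_u hr')
  have a5 := WW_ge (run_u hr) hi hj
  have a6 := WW_ge (run_u hr') hi' hj'
  have a7 := De_pos (run_u hr)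
  have a8 := De_pos (run_u hr')
  have h1 := congrArg Real.log he
  rw [Real.log_mul (by positivity) (by positivity), Real.log_mul (by positivity) (by positivity),
    Real.log_mul (by positivity) (by positivity), Real.log_mul (by positivity) (by positivity),
    Real.log_pow, Real.log_pow, Real.log_pow, Real.log_pow] at h1
  rw [Real.log_div (by positivity) (by positivity), Real.log_mul (by positivity) (by positivity),
    Real.log_mul (by positivity) (by positivity)]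
  have h2 := tt_eq hr k
  have h3 := tt_eq hr' k'
  push_cast at h1
  linarith

/-- the size parameters: `Z = exp (P/30)` -/
theorem Zfacts {u' : ℤ} {H P : ℝ} (hu : 1 ≤ u) (hu' : 1 ≤ u') (hH : 2 ≤ H)
    (hP1 : 3000 * Real.log H ≤ P) (hP2 : 3000 * Real.log (la u) ≤ P)
    (hP3 : 3000 * Real.log (la u') ≤ P) :
    10 ≤ Real.exp (P / 30) ∧ H ≤ Real.exp (P / 30) ∧ la u ≤ Real.exp (P / 30) ∧
      la u' ≤ Real.exp (P / 30) ∧ H * la u ≤ Real.exp (P / 30) ∧ H * la u' ≤ Real.exp (P / 30) ∧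
      18 * (H * la u * la u' ^ 2) ≤ Real.exp (P / 30) ∧
      18 * (H * la u' * la u ^ 2) ≤ Real.exp (P / 30) := by
  have hH0 : 0 < H := by linarith
  have hl := la_ge hu
  have hl' := la_ge hu'
  have key : H ^ 5 * (H * la u ^ 2 * la u' ^ 2) ≤ Real.exp (P / 30) := by
    rw [← Real.log_le_iff_le_exp (by positivity), Real.log_mul (by positivity) (by positivity),
      Real.log_mul (by positivity) (by positivity), Real.log_mul (by positivity) (by positivity),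
      Real.log_pow, Real.log_pow, Real.log_pow]
    push_cast
    have : 0 ≤ Real.log H := Real.log_nonneg (by linarith)
    linarith
  have h32 : 18 ≤ H ^ 5 := by
    have : (2 : ℝ) ^ 5 ≤ H ^ 5 := by gcongr
    linarith
  have h1 : 1 ≤ la u := by linarith
  have h1' : 1 ≤ la u' := by linarith
  have hH1 : 1 ≤ H := by linarith
  have b1 : la u ≤ la u ^ 2 := by nlinarith
  have b2 : la u' ≤ la u' ^ 2 := by nlinarith
  have b3 : 1 ≤ la u ^ 2 := by nlinarith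
  have b4 : 1 ≤ la u' ^ 2 := by nlinarith
  have key2 : 18 * (H * la u ^ 2 * la u' ^ 2) ≤ Real.exp (P / 30) := by
    refine le_trans ?_ key
    gcongr
  refine ⟨?_, ?_, ?_, ?_, ?_, ?_, ?_, ?_⟩
  · have : 1 * 1 * 1 ≤ H * la u ^ 2 * la u' ^ 2 := by gcongr
    linarith
  · have : H * 1 * 1 ≤ H * la u ^ 2 * la u' ^ 2 := by gcongr
    linarith
  · have : 1 * la u * 1 ≤ H * la u ^ 2 * la u' ^ 2 := by gcongr
    linarith
  · have : 1 * 1 * la u' ≤ H * la u ^ 2 * la u' ^ 2 := by gcongr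
    linarith
  · have : H * la u * 1 ≤ H * la u ^ 2 * la u' ^ 2 := by gcongr
    have h3 : 0 < H * la u := by positivity
    linarith
  · have : H * 1 * la u' ≤ H * la u ^ 2 * la u' ^ 2 := by gcongr
    have h3 : 0 < H * la u' := by positivity
    linarith
  · have : H * la u * la u' ^ 2 ≤ H * la u ^ 2 * la u' ^ 2 := by gcongr
    linarith
  · have : H * la u ^ 2 * la u' ≤ H * la u ^ 2 * la u' ^ 2 := by gcongr
    have h4 : H * la u' * la u ^ 2 = H * la u ^ 2 * la u' := by ring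
    linarith

theorem eps_eq (P : ℝ) : Real.exp (-P) = (Real.exp (P / 30))⁻¹ ^ 30 := by
  rw [← Real.exp_neg, ← Real.exp_nat_mul]
  congr 1
  push_cast
  ring

theorem absE {Z X X' W W' L L' : ℝ} (hZ : 10 ≤ Z) (hW : 1 ≤ W) (hW' : 1 ≤ W') (hX : 1 ≤ X)
    (hX' : 1 ≤ X') (hL : 0 < L) (hL' : 0 < L') (h1 : 2 * (W * X') ≤ Z) (h2 : 2 * (W' * X) ≤ Z)
    (hg : |W * (X' * L') - W' * (X * L)| ≤ Z⁻¹ ^ 30 * (W * (X' * L'))) :
    |W * X' * L' - W' * X * L| < Z⁻¹ ^ 12 * L' ∧ L ≤ Z * L' ∧ L' ≤ Z * L := by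
  have hZ0 : 0 < Z := by linarith
  have hZi : 0 < Z⁻¹ := by positivity
  have hZ1 : Z⁻¹ ≤ 1 / 2 := by
    rw [inv_le_comm₀ hZ0 (by norm_num)]
    linarith
  have hε : Z⁻¹ ^ 30 ≤ 1 / 2 := by
    calc Z⁻¹ ^ 30 ≤ (1 / 2 : ℝ) ^ 30 := by gcongr
      _ ≤ 1 / 2 := by norm_num
  have hWXL : 0 < W * (X' * L') := by positivity
  have hg2 : |W * (X' * L') - W' * (X * L)| ≤ 1 / 2 * (W * (X' * L')) :=
    hg.trans (by gcongr)
  obtain ⟨g1, g2⟩ := abs_le.1 hg2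
  refine ⟨?_, ?_, ?_⟩
  · have e1 : W * X' * L' - W' * X * L = W * (X' * L') - W' * (X * L) := by ring
    rw [e1]
    refine hg.trans_lt ?_
    have e2 : W * (X' * L') ≤ Z * L' := by nlinarith
    have e3 : Z⁻¹ ^ 30 * Z < Z⁻¹ ^ 12 := by
      have e4 : Z⁻¹ * Z = 1 := inv_mul_cancel₀ hZ0.ne'
      have e5 : Z⁻¹ ^ 30 * Z = Z⁻¹ ^ 29 := by
        rw [show (30 : ℕ) = 29 + 1 from rfl, pow_succ, mul_assoc, e4, mul_one]
      rw [e5]
      exact pow_lt_pow_right_of_lt_one₀ hZi (by linarith) (by norm_num)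
    calc Z⁻¹ ^ 30 * (W * (X' * L')) ≤ Z⁻¹ ^ 30 * (Z * L') := by gcongr
      _ = (Z⁻¹ ^ 30 * Z) * L' := by ring
      _ < Z⁻¹ ^ 12 * L' := by gcongr
  · have e1 : W' * (X * L) ≤ 2 * (W * X') * L' := by nlinarith
    have e2 : 1 * (1 * L) ≤ W' * (X * L) := by gcongr
    have e3 : 2 * (W * X') * L' ≤ Z * L' := by gcongr
    linarith
  · have e1 : W * (X' * L') ≤ 2 * (W' * X) * L := by nlinarith
    have e2 : 1 * (1 * L') ≤ W * (X' * L') := by gcongr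
    have e3 : 2 * (W' * X) * L ≤ Z * L := by gcongr
    linarith

/-- the sizes of the data of a position -/
theorem sizes {A B u' A' B' i j i' j' : ℤ} {k k' : ℕ} {H P : ℝ}
    (hr : RunD u A B) (hr' : RunD u' A' B') (hH : 2 ≤ H)
    (hp : PosD u A B k i j u' A' B' k' i' j' H P) :
    WW u i j ≤ H * la u ∧ WW u' i' j' ≤ H * la u' ∧
      (WW u i j * Xi u' A' B' ^ 2) ≤ 9 * (H * la u * la u' ^ 2) ∧
      (WW u' i' j' * Xi u A B ^ 2) ≤ 9 * (H * la u' * la u ^ 2) := by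
  have hu := run_u hr
  have hu' := run_u hr'
  have hiH := hp.iH
  have hiH' := hp.iH'
  have hl := la_ge hu
  have hl' := la_ge hu'
  have hX := Xi_ge hr
  have hX' := Xi_ge hr'
  have hXle := Xi_le hr
  have hXle' := Xi_le hr'
  have hW := WW_ge hu hp.i1 hp.j1
  have hW' := WW_ge hu' hp.i1' hp.j1'
  have hWle : WW u i j ≤ H * la u :=
    (WW_le hu hp.j1).trans (mul_le_mul_of_nonneg_right hiH (by linarith))
  have hWle' : WW u' i' j' ≤ H * la u' :=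
    (WW_le hu' hp.j1').trans (mul_le_mul_of_nonneg_right hiH' (by linarith))
  have hX2le : Xi u A B ^ 2 ≤ 9 * la u ^ 2 := by nlinarith
  have hX2le' : Xi u' A' B' ^ 2 ≤ 9 * la u' ^ 2 := by nlinarith
  have hHl : 0 ≤ H * la u := mul_nonneg (by linarith) (by linarith)
  have hHl' : 0 ≤ H * la u' := mul_nonneg (by linarith) (by linarith)
  refine ⟨hWle, hWle', ?_, ?_⟩
  · calc WW u i j * Xi u' A' B' ^ 2 ≤ (H * la u) * (9 * la u' ^ 2) :=
        mul_le_mul hWle hX2le' (sq_nonneg _) hHl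
      _ = _ := by ring
  · calc WW u' i' j' * Xi u A B ^ 2 ≤ (H * la u') * (9 * la u ^ 2) :=
        mul_le_mul hWle' hX2le (sq_nonneg _) hHl'
      _ = _ := by ring

theorem single_exact (hs : SINGLE) {A B u' A' B' i j i' j' : ℤ} {k k' n : ℕ} {H P : ℝ}
    (hr : RunD u A B) (hr' : RunD u' A' B')
    (hn : (n : ℤ) ^ 2 = (9 * u ^ 2 - 4) * (9 * u' ^ 2 - 4)) (hH : 2 ≤ H)
    (hP1 : 3000 * Real.log H ≤ P) (hP2 : 3000 * Real.log (la u) ≤ P)
    (hP3 : 3000 * Real.log (la u') ≤ P) (hp : PosD u A B k i j u' A' B' k' i' j' H P) :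
    WW u i j * Xi u' A' B' ^ 2 * la u' ^ (2 * k' + 1) =
      WW u' i' j' * Xi u A B ^ 2 * la u ^ (2 * k + 1) ∧ NN u i j * u' ^ 4 = NN u' i' j' * u ^ 4 := by
  have hu := run_u hr
  have hu' := run_u hr'
  obtain ⟨z1, z2, z3, z4, z5, z6, z7, z8⟩ := Zfacts hu hu' hH hP1 hP2 hP3
  have hgap := gapm hr hr' hp
  rw [eps_eq P] at hgap
  obtain ⟨s1, s2, s3, s4⟩ := sizes hr hr' hH hp
  have hi : (1 : ℝ) ≤ i := by exact_mod_cast hp.i1
  have hj : (1 : ℝ) ≤ j := by exact_mod_cast hp.j1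
  have hi' : (1 : ℝ) ≤ i' := by exact_mod_cast hp.i1'
  have hj' : (1 : ℝ) ≤ j' := by exact_mod_cast hp.j1'
  have hiH := hp.iH
  have hiH' := hp.iH'
  have hX := Xi_ge hr
  have hX' := Xi_ge hr'
  obtain ⟨a1, a2, a3⟩ := absE z1 (WW_ge hu hp.i1 hp.j1) (WW_ge hu' hp.i1' hp.j1')
    (by nlinarith : 1 ≤ Xi u A B ^ 2) (by nlinarith : 1 ≤ Xi u' A' B' ^ 2)
    (pow_pos (la_pos hu) (2 * k + 1)) (pow_pos (la_pos hu') (2 * k' + 1)) (by linarith)
    (by linarith) hgap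
  exact hs u A B u' A' B' i j i' j' k k' n _ hr hr' hn hp.i1 hp.j1 hp.i1' hp.j1' z1
    (by linarith) (by linarith) (by linarith) (by linarith) z3 z4 a2 a3 a1

theorem absP {Z X X' W1 W1' W2 W2' l l' : ℝ} (hZ : 10 ≤ Z) (hW1 : 1 ≤ W1)
    (hW1' : 1 ≤ W1') (hW2 : 1 ≤ W2) (hW2' : 1 ≤ W2') (hX : 0 < X) (hX' : 0 < X')
    (hl : 0 < l) (hl' : 0 < l') (h1 : W1 ≤ Z) (h1' : W1' ≤ Z) (h2 : W2 ≤ Z) (h2' : W2' ≤ Z)
    (h3 : l ≤ Z) (h3' : l' ≤ Z)
    (hg1 : |W1 * X' - W1' * X| ≤ Z⁻¹ ^ 30 * (W1 * X'))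
    (hg2 : |W2 * (X' * l') - W2' * (X * l)| ≤ Z⁻¹ ^ 30 * (W2 * (X' * l'))) :
    |W1 * W2' * l - W2 * W1' * l'| < Z⁻¹ ^ 24 := by
  have hZ0 : 0 < Z := by linarith
  have hZi : 0 < Z⁻¹ := by positivity
  have e1 : X' * (W1 * W2' * l - W2 * W1' * l') =
      (W1 * X' - W1' * X) * (W2' * l) - (W2 * (X' * l') - W2' * (X * l)) * W1' := by ring
  have e2 : X' * |W1 * W2' * l - W2 * W1' * l'| ≤
      X' * (Z⁻¹ ^ 30 * (2 * Z ^ 3)) := by
    rw [← abs_of_pos hX', ← abs_mul, abs_of_pos hX', e1]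
    calc |(W1 * X' - W1' * X) * (W2' * l) - (W2 * (X' * l') - W2' * (X * l)) * W1'|
        ≤ |(W1 * X' - W1' * X) * (W2' * l)| + |(W2 * (X' * l') - W2' * (X * l)) * W1'| :=
          abs_sub _ _
      _ = |W1 * X' - W1' * X| * (W2' * l) + |W2 * (X' * l') - W2' * (X * l)| * W1' := by
          rw [abs_mul (W1 * X' - W1' * X) (W2' * l), abs_mul _ W1',
            abs_of_pos (show 0 < W2' * l by positivity), abs_of_pos (show 0 < W1' by linarith)]
      _ ≤ Z⁻¹ ^ 30 * (W1 * X') * (W2' * l) + Z⁻¹ ^ 30 * (W2 * (X' * l')) * W1' := by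
          gcongr
      _ ≤ Z⁻¹ ^ 30 * (Z * X') * (Z * Z) + Z⁻¹ ^ 30 * (Z * (X' * Z)) * Z := by gcongr
      _ = X' * (Z⁻¹ ^ 30 * (2 * Z ^ 3)) := by ring
  have e3 := le_of_mul_le_mul_left e2 hX'
  refine e3.trans_lt ?_
  have e4 : Z⁻¹ * Z = 1 := inv_mul_cancel₀ hZ0.ne'
  have e5 : Z⁻¹ ^ 30 * (2 * Z ^ 3) = 2 * Z⁻¹ ^ 27 := by
    have : Z⁻¹ ^ 30 * (2 * Z ^ 3) = 2 * Z⁻¹ ^ 27 * (Z⁻¹ * Z) ^ 3 := by ring
    rw [this, e4]; ring
  rw [e5]
  have e6 : 2 * Z⁻¹ ^ 3 < 1 := by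
    have h5 : Z⁻¹ ≤ 1 / 10 := by
      rw [inv_le_comm₀ hZ0 (by norm_num)]
      linarith
    have h6 : Z⁻¹ ^ 3 ≤ (1 / 10) ^ 3 := by gcongr
    have h7 : ((1 : ℝ) / 10) ^ 3 = 1 / 1000 := by norm_num
    rw [h7] at h6
    linarith
  calc 2 * Z⁻¹ ^ 27 = (2 * Z⁻¹ ^ 3) * Z⁻¹ ^ 24 := by ring
    _ < 1 * Z⁻¹ ^ 24 := by gcongr
    _ = Z⁻¹ ^ 24 := one_mul _

/-- two positions: the fields agree and the coordinates are related -/
theorem pair_exact (hq : PAIR) {A B u' A' B' i1 j1 i2 j2 i1' j1' i2' j2' : ℤ} {n1 n1' a b : ℕ}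
    {H P : ℝ} (hr : RunD u A B) (hr' : RunD u' A' B') (ha : 1 ≤ a) (hb : 1 ≤ b) (hH : 2 ≤ H)
    (hP1 : 3000 * Real.log H ≤ P) (hP2 : 3000 * Real.log (la u) ≤ P)
    (hP3 : 3000 * Real.log (la u') ≤ P) (hP4 : 3000 * (a * Real.log (la u)) ≤ P)
    (hP5 : 3000 * (b * Real.log (la u')) ≤ P)
    (hp1 : PosD u A B n1 i1 j1 u' A' B' n1' i1' j1' H P)
    (hp2 : PosD u A B (n1 + a) i2 j2 u' A' B' (n1' + b) i2' j2' H P)
    (hab : a * Real.log (la u) = b * Real.log (la u')) :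
    WW u i1 j1 * WW u' i2' j2' = WW u i2 j2 * WW u' i1' j1' ∧
      ∃ n : ℕ, (n : ℤ) ^ 2 = (9 * u ^ 2 - 4) * (9 * u' ^ 2 - 4) := by
  have hu := run_u hr
  have hu' := run_u hr'
  obtain ⟨z1, z2, z3, z4, z5, z6, z7, z8⟩ := Zfacts hu hu' hH hP1 hP2 hP3
  have hgap1 := gapm hr hr' hp1
  have hgap2 := gapm hr hr' hp2
  rw [eps_eq P] at hgap1 hgap2
  obtain ⟨s1, s2, s3, s4⟩ := sizes hr hr' hH hp1
  obtain ⟨s1', s2', s3', s4'⟩ := sizes hr hr' hH hp2
  have hl := la_ge hu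
  have hl' := la_ge hu'
  have hP0 : 0 ≤ P := by
    have : 0 ≤ Real.log H := Real.log_nonneg (by linarith)
    linarith
  have hla : la u ^ (2 * a) ≤ Real.exp (P / 30) := by
    rw [← Real.log_le_iff_le_exp (pow_pos (la_pos hu) _), Real.log_pow]
    push_cast
    linarith
  have hla' : la u' ^ (2 * b) ≤ Real.exp (P / 30) := by
    rw [← Real.log_le_iff_le_exp (pow_pos (la_pos hu') _), Real.log_pow]
    push_cast
    linarith
  have hXL : 0 < Xi u A B ^ 2 * la u ^ (2 * n1 + 1) := by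
    have := Xi_ge hr
    have := la_pos hu
    positivity
  have hXL' : 0 < Xi u' A' B' ^ 2 * la u' ^ (2 * n1' + 1) := by
    have := Xi_ge hr'
    have := la_pos hu'
    positivity
  have e1 : Xi u A B ^ 2 * la u ^ (2 * (n1 + a) + 1) =
      Xi u A B ^ 2 * la u ^ (2 * n1 + 1) * la u ^ (2 * a) := by
    rw [show 2 * (n1 + a) + 1 = (2 * n1 + 1) + 2 * a by ring, pow_add]
    ring
  have e2 : Xi u' A' B' ^ 2 * la u' ^ (2 * (n1' + b) + 1) =
      Xi u' A' B' ^ 2 * la u' ^ (2 * n1' + 1) * la u' ^ (2 * b) := by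
    rw [show 2 * (n1' + b) + 1 = (2 * n1' + 1) + 2 * b by ring, pow_add]
    ring
  rw [e1, e2] at hgap2
  have h := absP z1 (WW_ge hu hp1.i1 hp1.j1) (WW_ge hu' hp1.i1' hp1.j1') (WW_ge hu hp2.i1 hp2.j1)
    (WW_ge hu' hp2.i1' hp2.j1') hXL hXL' (pow_pos (la_pos hu) (2 * a))
    (pow_pos (la_pos hu') (2 * b)) (s1.trans z5) (s2.trans z6) (s1'.trans z5) (s2'.trans z6)
    hla hla' hgap1 hgap2
  have hc1 : (1 : ℝ) ≤ i1 := by exact_mod_cast hp1.i1
  have hc2 : (1 : ℝ) ≤ j1 := by exact_mod_cast hp1.j1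
  have hc3 : (1 : ℝ) ≤ i1' := by exact_mod_cast hp1.i1'
  have hc4 : (1 : ℝ) ≤ j1' := by exact_mod_cast hp1.j1'
  have hc5 : (1 : ℝ) ≤ i2 := by exact_mod_cast hp2.i1
  have hc6 : (1 : ℝ) ≤ j2 := by exact_mod_cast hp2.j1
  have hc7 : (1 : ℝ) ≤ i2' := by exact_mod_cast hp2.i1'
  have hc8 : (1 : ℝ) ≤ j2' := by exact_mod_cast hp2.j1'
  have d1 := hp1.iH
  have d2 := hp1.iH'
  have d3 := hp2.iH
  have d4 := hp2.iH'
  obtain ⟨g1, g2⟩ := hq u u' i1 j1 i2 j2 i1' j1' i2' j2' a b _ hu hu' ha hb hp1.i1 hp1.j1 hp2.i1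
    hp2.j1 hp1.i1' hp1.j1' hp2.i1' hp2.j1' z1 (by linarith) (by linarith) (by linarith)
    (by linarith) (by linarith) (by linarith) (by linarith) (by linarith) z3 z4 hla hla' h
  refine ⟨?_, g2⟩
  have e3 : la u ^ (2 * a) = la u' ^ (2 * b) := by
    apply Real.log_injOn_pos (pow_pos (la_pos hu) _) (pow_pos (la_pos hu') _)
    rw [Real.log_pow, Real.log_pow]
    push_cast
    linarith
  rw [e3] at g1
  exact mul_right_cancel₀ (pow_pos (la_pos hu') _).ne' g1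

/-- smallness of the error -/
theorem eps_small {H P : ℝ} (hH : 2 ≤ H) (hP1 : 3000 * Real.log H ≤ P) :
    Real.exp (-P) ≤ H⁻¹ ^ 3000 := by
  have hH0 : 0 < H := by linarith
  rw [← Real.log_le_log_iff (Real.exp_pos _) (by positivity), Real.log_exp, Real.log_pow,
    Real.log_inv]
  push_cast
  linarith

theorem eps_small' {H P : ℝ} (hH : 2 ≤ H) (hP1 : 3000 * Real.log H ≤ P) :
    2 * Real.exp (-P) * (100 * H) < 1 := by
  have h1 := eps_small hH hP1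
  have hH0 : 0 < H := by linarith
  have h2 : H⁻¹ ≤ 1 / 2 := by rw [inv_le_comm₀ hH0 (by norm_num)]; linarith
  have h0 : 0 < H⁻¹ := by positivity
  have h3 : H⁻¹ ^ 3000 ≤ H⁻¹ ^ 11 :=
    pow_le_pow_of_le_one h0.le (by linarith) (by norm_num)
  have h4 : H⁻¹ ^ 10 ≤ (1 / 2) ^ 10 := by gcongr
  have h5 : ((1 : ℝ) / 2) ^ 10 = 1 / 1024 := by norm_num
  have h6 : H⁻¹ * H = 1 := inv_mul_cancel₀ hH0.ne'
  have h7 : Real.exp (-P) ≤ H⁻¹ ^ 11 := h1.trans h3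
  calc 2 * Real.exp (-P) * (100 * H) ≤ 2 * H⁻¹ ^ 11 * (100 * H) := by gcongr
    _ = 200 * H⁻¹ ^ 10 * (H⁻¹ * H) := by ring
    _ = 200 * H⁻¹ ^ 10 := by rw [h6, mul_one]
    _ < 1 := by rw [h5] at h4; linarith

theorem artanh_use (ha : ARTANH) (hu : 1 ≤ u) {i j : ℤ} {H P e : ℝ} (hH : 2 ≤ H)
    (hP1 : 3000 * Real.log H ≤ P) (hj : 1 ≤ j) (hij : j < i) (hiH : (i : ℝ) + j ≤ H)
    (he : |((i : ℝ) + j) * Real.log (WW u i j / WW u j i) - 2 * ((i : ℝ) - j) * Real.log (la u)|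
      ≤ 2 * Real.exp (-P)) : False := by
  have h1 := ha u i j hu hj hij
  have hj' : (1 : ℝ) ≤ j := by exact_mod_cast hj
  have hi' : (j : ℝ) < i := by exact_mod_cast hij
  have hS : 0 < (i : ℝ) + j := by linarith
  have h2 := mul_le_mul_of_nonneg_left h1 hS.le
  have h3 : ((i : ℝ) + j) * (1 / (100 * ((i : ℝ) + j) ^ 2)) = 1 / (100 * ((i : ℝ) + j)) := by
    field_simp
  have h4 : ((i : ℝ) + j) * (2 * ((i : ℝ) - j) / (i + j) * Real.log (la u) -
      Real.log (WW u i j / WW u j i)) =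
      -(((i : ℝ) + j) * Real.log (WW u i j / WW u j i) -
        2 * ((i : ℝ) - j) * Real.log (la u)) := by
    field_simp
    ring
  rw [h3, h4] at h2
  have h5 := (abs_le.1 he).1
  have h6 : 1 / (100 * ((i : ℝ) + j)) ≤ 2 * Real.exp (-P) := by linarith
  have h7 : 1 ≤ 2 * Real.exp (-P) * (100 * ((i : ℝ) + j)) := by
    rwa [div_le_iff₀ (by positivity)] at h6
  have h8 := eps_small' hH hP1
  have h9 : 2 * Real.exp (-P) * (100 * ((i : ℝ) + j)) ≤ 2 * Real.exp (-P) * (100 * H) := by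
    gcongr
  linarith

/-- equal regions and coordinates up to order -/
theorem twoPrime (ha : ARTANH) {A B u' A' B' i j i' j' : ℤ} {k k' : ℕ} {H P : ℝ}
    (hr : RunD u A B) (hr' : RunD u' A' B') (hH : 2 ≤ H) (hP1 : 3000 * Real.log H ≤ P)
    (hp : PosD u A B k i j u' A' B' k' i' j' H P)
    (he : WW u i j * Xi u' A' B' ^ 2 * la u' ^ (2 * k' + 1) =
      WW u' i' j' * Xi u A B ^ 2 * la u ^ (2 * k + 1)) (huu : u = u')
    (hij : (i = i' ∧ j = j') ∨ (i = j' ∧ j = i')) :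
    SameP u A B k i j u' A' B' k' i' j' := by
  subst huu
  have hu := run_u hr
  have hst := star hr hr' hp.i1 hp.j1 hp.i1' hp.j1' he
  have hD := De_pos hu
  rcases hij with ⟨rfl, rfl⟩ | ⟨rfl, rfl⟩
  · have hW := WW_ge hu hp.i1 hp.j1
    rw [div_self (by positivity), Real.log_one] at hst
    exact ⟨rfl, rfl, rfl, by linarith⟩
  · rcases eq_or_ne i j with rfl | hne
    · have hW := WW_ge hu hp.i1 hp.j1
      rw [div_self (by positivity), Real.log_one] at hst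
      exact ⟨rfl, rfl, rfl, by linarith⟩
    exfalso
    have hW := WW_ge hu hp.i1 hp.j1
    have hW' := WW_ge hu hp.j1 hp.i1
    rw [mul_div_mul_right _ _ (by linarith : De u ≠ 0)] at hst
    have hlin := hp.lin
    unfold LL at hlin
    have e1 : ((i : ℝ) + j) * Real.log (WW u i j / WW u j i) -
        2 * ((i : ℝ) - j) * Real.log (la u) =
        2 * (((i : ℝ) + j) * tt u A B k + j * Real.log (la u) -
          (((j : ℝ) + i) * tt u A' B' k' + i * Real.log (la u))) := by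
      linear_combination (-((i : ℝ) + j)) * hst
    have e2 : |((i : ℝ) + j) * Real.log (WW u i j / WW u j i) -
        2 * ((i : ℝ) - j) * Real.log (la u)| ≤ 2 * Real.exp (-P) := by
      rw [e1, abs_mul, abs_of_pos (by norm_num : (0 : ℝ) < 2)]
      gcongr
    rcases lt_or_gt_of_ne hne with h | h
    · refine artanh_use (e := 0) ha hu hH hP1 hp.i1 h (by have := hp.iH; linarith) (P := P) ?_
      have e3 : ((j : ℝ) + i) * Real.log (WW u j i / WW u i j) -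
          2 * ((j : ℝ) - i) * Real.log (la u) = -(((i : ℝ) + j) * Real.log (WW u i j / WW u j i) -
          2 * ((i : ℝ) - j) * Real.log (la u)) := by
        rw [Real.log_div (by positivity) (by positivity), Real.log_div (by positivity)
          (by positivity)]
        ring
      rw [e3, abs_neg]
      exact e2
    · exact artanh_use (e := 0) ha hu hH hP1 hp.j1 h hp.iH (P := P) e2

/-- the bound for linear forms in two logarithms in the form which is used -/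
theorem key2 (ht : TWOLOG) : ∃ C : ℝ, 0 ≤ C ∧ ∀ (u P Q N a b : ℤ) (α H : ℝ), 1 ≤ u → 1 ≤ N →
    0 < α → α * N = P + Q * ww u → 2 ≤ H → la u ≤ H ^ 290 → |(P : ℝ)| ≤ H ^ 290 →
    |(Q : ℝ)| * ww u ≤ H ^ 290 → (N : ℝ) ≤ H ^ 290 → 1 ≤ b → (b : ℝ) ≤ H ^ 6 →
    |(a : ℝ)| ≤ H ^ 6 → b * Real.log α ≠ a * Real.log (la u) →
    Real.exp (-(C * Real.log H ^ 4)) ≤ |b * Real.log α - a * Real.log (la u)| := by
  obtain ⟨C, hC, h⟩ := ht
  refine ⟨C * 290 ^ 2 * 20 ^ 2, by positivity, ?_⟩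
  intro u P Q N a b α H hu hN hα h1 hH h2 h3 h4 h5 hb h6 h7 h8
  have hH0 : 0 < H := by linarith
  have hL : 69 / 100 ≤ Real.log H := by
    have h1 : Real.log 2 ≤ Real.log H := Real.log_le_log (by norm_num) hH
    have h2 := Real.log_two_gt_d9
    linarith
  have hY : Real.exp (290 * Real.log H) = H ^ 290 := by
    rw [show (290 : ℝ) * Real.log H = ((290 : ℕ) : ℝ) * Real.log H by norm_num, Real.exp_nat_mul,
      Real.exp_log hH0]
  have h64 : (2 : ℝ) ^ 6 ≤ H ^ 6 := by gcongr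
  have h9 := h u P Q N a b α (290 * Real.log H) (H ^ 6) hu hN hα h1 (by linarith)
    (by linarith) (by
      have := Real.log_le_log (la_pos hu) h2
      rw [Real.log_pow] at this
      push_cast at this
      exact this) (by rw [hY]; exact h3) (by rw [hY]; exact h4) (by rw [hY]; exact h5) hb h6 h7 h8
  refine le_trans ?_ h9
  rw [Real.exp_le_exp, neg_le_neg_iff]
  have e1 : Real.log (290 * Real.log H * H ^ 6) ≤ 20 * Real.log H - 1 := by
    rw [Real.log_mul (by positivity) (by positivity), Real.log_mul (by norm_num) (by positivity),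
      Real.log_pow]
    have e2 : Real.log (Real.log H) ≤ Real.log H := by
      have := Real.log_le_sub_one_of_pos (show 0 < Real.log H by linarith)
      linarith
    have e3 : Real.log 290 ≤ 9 * Real.log H := by
      have e4 : Real.log 290 ≤ Real.log (H ^ 9) := by
        apply Real.log_le_log (by norm_num)
        have : (2 : ℝ) ^ 9 ≤ H ^ 9 := by gcongr
        linarith
      rw [Real.log_pow] at e4
      push_cast at e4
      exact e4
    push_cast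
    linarith
  have e0 : 0 ≤ Real.log (290 * Real.log H * H ^ 6) := by
    apply Real.log_nonneg
    have h1 : (1 : ℝ) ≤ 290 * Real.log H := by linarith
    have h2 : (1 : ℝ) ≤ H ^ 6 := by linarith
    calc (1 : ℝ) = 1 * 1 := by norm_num
      _ ≤ 290 * Real.log H * H ^ 6 := by gcongr
  have e5 : (1 + Real.log (290 * Real.log H * H ^ 6)) ^ 2 ≤ (20 * Real.log H) ^ 2 := by
    apply pow_le_pow_left₀ (by linarith)
    linarith
  calc C * (290 * Real.log H) ^ 2 * (1 + Real.log (290 * Real.log H * H ^ 6)) ^ 2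
      ≤ C * (290 * Real.log H) ^ 2 * (20 * Real.log H) ^ 2 := by gcongr
    _ = C * 290 ^ 2 * 20 ^ 2 * Real.log H ^ 4 := by ring

theorem key2_contra {C H P x : ℝ} (hH : 2 ≤ H) (hP : (C + 20) * Real.log H ^ 4 ≤ P)
    (h1 : Real.exp (-(C * Real.log H ^ 4)) ≤ x) (h2 : x ≤ 2 * H ^ 2 * Real.exp (-P)) : False := by
  have hH0 : 0 < H := by linarith
  have hL : 69 / 100 ≤ Real.log H := by
    have h1 : Real.log 2 ≤ Real.log H := Real.log_le_log (by norm_num) hH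
    have h2 := Real.log_two_gt_d9
    linarith
  have h3 := h1.trans h2
  have h4 : 2 * H ^ 2 ≤ H ^ 3 := by nlinarith [sq_nonneg H]
  have h5 : Real.exp (-(C * Real.log H ^ 4)) ≤ Real.exp (3 * Real.log H - P) := by
    refine h3.trans ?_
    have e1 : Real.exp (3 * Real.log H) = H ^ 3 := by
      rw [show (3 : ℝ) * Real.log H = ((3 : ℕ) : ℝ) * Real.log H by norm_num, Real.exp_nat_mul,
        Real.exp_log hH0]
    rw [sub_eq_add_neg, Real.exp_add, e1]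
    gcongr
  rw [Real.exp_le_exp] at h5
  generalize Real.log H = L at *
  have h6 : (69 / 100 : ℝ) ^ 3 ≤ L ^ 3 := by gcongr
  have h7 : 3 * L < 20 * L ^ 4 := by
    have : (0.3 : ℝ) ≤ L ^ 3 := by norm_num at h6 ⊢; linarith
    nlinarith
  nlinarith

theorem nw {u' : ℤ} {n : ℕ} (hu : 1 ≤ u) (hu' : 1 ≤ u')
    (hn : (n : ℤ) ^ 2 = (9 * u ^ 2 - 4) * (9 * u' ^ 2 - 4)) : ww u * ww u' = n := by
  have h1 := ww_sq hu
  have h2 := ww_sq hu'
  have h3 : (ww u * ww u') ^ 2 = (n : ℝ) ^ 2 := by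
    have h4 : ((n : ℝ)) ^ 2 = (9 * (u : ℝ) ^ 2 - 4) * (9 * (u' : ℝ) ^ 2 - 4) := by
      exact_mod_cast hn
    rw [mul_pow, h1, h2, h4]
  have h4 := ww_ge hu
  have h5 := ww_ge hu'
  exact (pow_left_inj₀ (by positivity) (by positivity) (by norm_num)).1 h3

theorem lin_indep (hu : 1 ≤ u) {x y : ℤ} (h : (x : ℝ) + y * ww u = 0) : x = 0 ∧ y = 0 := by
  have h1 := ww_sq hu
  have h2 : (x : ℝ) ^ 2 = (y : ℝ) ^ 2 * (9 * (u : ℝ) ^ 2 - 4) := by
    rw [← h1]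
    have : (x : ℝ) = -(y * ww u) := by linarith
    rw [this]
    ring
  have h3 : x ^ 2 = y ^ 2 * (9 * u ^ 2 - 4) := by exact_mod_cast h2
  by_cases hy : y = 0
  · subst hy
    refine ⟨?_, rfl⟩
    have : x ^ 2 = 0 := by rw [h3]; ring
    exact pow_eq_zero_iff (by norm_num) |>.1 this
  · exfalso
    have h4 : y ^ 2 ∣ x ^ 2 := ⟨_, h3⟩
    have h5 : y ∣ x := (Int.pow_dvd_pow_iff (by norm_num)).1 h4
    obtain ⟨z, rfl⟩ := h5
    have h6 : z ^ 2 = 9 * u ^ 2 - 4 := by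
      have : y ^ 2 * z ^ 2 = y ^ 2 * (9 * u ^ 2 - 4) := by rw [← h3]; ring
      exact mul_left_cancel₀ (pow_ne_zero 2 hy) this
    have h7 : |z| ^ 2 = 9 * u ^ 2 - 4 := by rw [sq_abs]; exact h6
    have h8 : 0 ≤ |z| := abs_nonneg z
    generalize |z| = q at h7 h8
    have h9 : q < 3 * u := by
      by_contra hc
      push Not at hc
      nlinarith
    have h10 : q ≤ 3 * u - 1 := by omega
    nlinarith

/-- parameters of size `H` -/
theorem absPar {i j : ℤ} {H : ℝ} (hi : 1 ≤ i) (hj : 1 ≤ j) (hH : (i : ℝ) + j ≤ H) :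
    0 < (i : ℝ) + j ∧ |(i : ℝ) - j| ≤ (i : ℝ) + j ∧ |(i : ℝ) - j| ≤ H ∧ (i : ℝ) ≤ H ∧ (j : ℝ) ≤ H := by
  have h1 : (1 : ℝ) ≤ i := by exact_mod_cast hi
  have h2 : (1 : ℝ) ≤ j := by exact_mod_cast hj
  have h3 : |(i : ℝ) - j| ≤ (i : ℝ) + j := abs_le.2 ⟨by linarith, by linarith⟩
  exact ⟨by linarith, h3, h3.trans hH, by linarith, by linarith⟩

theorem szD {x : ℝ} (hx : 1 ≤ x) : |9 * x ^ 2 - 4| ≤ 9 * x ^ 2 := by
  rw [abs_of_nonneg (by nlinarith)]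
  linarith

theorem szP {x x' S S' d d' n H U : ℝ} (hx : 1 ≤ x) (hx' : 1 ≤ x') (hS : |S| ≤ H) (hS' : |S'| ≤ H)
    (hd : |d| ≤ H) (hd' : |d'| ≤ H) (hn : |n| ≤ 9 * (x * x')) (hxU : x ≤ U) (hxU' : x' ≤ U) :
    |(9 * x' ^ 2 - 4) * (9 * x ^ 2 - 4) * (9 * x * x' * S * S' - d * d' * n)| ≤
      4096 * (U ^ 6 * H ^ 2) := by
  have hU0 : 0 ≤ U := by linarith
  have hH0 : 0 ≤ H := (abs_nonneg _).trans hS
  have h1 : |9 * x * x' * S * S' - d * d' * n| ≤ 18 * (x * x') * H ^ 2 := by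
    calc |9 * x * x' * S * S' - d * d' * n| ≤ |9 * x * x' * S * S'| + |d * d' * n| := abs_sub _ _
      _ = 9 * (x * x') * (|S| * |S'|) + |d| * |d'| * |n| := by
          rw [abs_mul, abs_mul, abs_mul, abs_mul, abs_mul, abs_mul, abs_of_pos (by norm_num :
            (0 : ℝ) < 9), abs_of_pos (by linarith : (0 : ℝ) < x),
            abs_of_pos (by linarith : (0 : ℝ) < x')]
          ring
      _ ≤ 9 * (x * x') * (H * H) + H * H * (9 * (x * x')) := by gcongr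
      _ = 18 * (x * x') * H ^ 2 := by ring
  rw [abs_mul, abs_mul]
  calc |9 * x' ^ 2 - 4| * |9 * x ^ 2 - 4| * |9 * x * x' * S * S' - d * d' * n|
      ≤ (9 * x' ^ 2) * (9 * x ^ 2) * (18 * (x * x') * H ^ 2) := by
        have := szD hx
        have := szD hx'
        gcongr
    _ ≤ (9 * U ^ 2) * (9 * U ^ 2) * (18 * (U * U) * H ^ 2) := by gcongr
    _ = 1458 * (U ^ 6 * H ^ 2) := by ring
    _ ≤ 4096 * (U ^ 6 * H ^ 2) := by gcongr; norm_num

theorem szQ {x x' S S' d d' n H U w : ℝ} (hx : 1 ≤ x) (hx' : 1 ≤ x') (hS : |S| ≤ H)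
    (hS' : |S'| ≤ H) (hd : |d| ≤ H) (hd' : |d'| ≤ H) (hn : |n| ≤ 9 * (x * x')) (hxU : x ≤ U)
    (hxU' : x' ≤ U) (hw0 : 0 ≤ w) (hw : w ≤ 3 * x) :
    |(9 * x' ^ 2 - 4) * (3 * x' * S' * (9 * x ^ 2 - 4) * d - 3 * x * S * d' * n)| * w ≤
      4096 * (U ^ 6 * H ^ 2) := by
  have hU0 : 0 ≤ U := by linarith
  have hH0 : 0 ≤ H := (abs_nonneg _).trans hS
  have h1 : |3 * x' * S' * (9 * x ^ 2 - 4) * d - 3 * x * S * d' * n| ≤
      54 * (x ^ 2 * x') * H ^ 2 := by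
    calc |3 * x' * S' * (9 * x ^ 2 - 4) * d - 3 * x * S * d' * n|
        ≤ |3 * x' * S' * (9 * x ^ 2 - 4) * d| + |3 * x * S * d' * n| := abs_sub _ _
      _ = 3 * x' * |S'| * |9 * x ^ 2 - 4| * |d| + 3 * x * |S| * |d'| * |n| := by
          rw [abs_mul, abs_mul, abs_mul, abs_mul, abs_mul, abs_mul, abs_mul, abs_mul,
            abs_of_pos (by norm_num : (0 : ℝ) < 3), abs_of_pos (by linarith : (0 : ℝ) < x),
            abs_of_pos (by linarith : (0 : ℝ) < x')]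
      _ ≤ 3 * x' * H * (9 * x ^ 2) * H + 3 * x * H * H * (9 * (x * x')) := by
          have := szD hx
          gcongr
      _ = 54 * (x ^ 2 * x') * H ^ 2 := by ring
  rw [abs_mul]
  calc |9 * x' ^ 2 - 4| * |3 * x' * S' * (9 * x ^ 2 - 4) * d - 3 * x * S * d' * n| * w
      ≤ (9 * x' ^ 2) * (54 * (x ^ 2 * x') * H ^ 2) * (3 * x) := by
        have := szD hx'
        gcongr
    _ ≤ (9 * U ^ 2) * (54 * (U ^ 2 * U) * H ^ 2) * (3 * U) := by gcongr
    _ = 1458 * (U ^ 6 * H ^ 2) := by ring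
    _ ≤ 4096 * (U ^ 6 * H ^ 2) := by gcongr; norm_num

theorem szN {x x' i j N H U : ℝ} (hx : 1 ≤ x) (hx' : 1 ≤ x') (hH : 1 ≤ H) (hi : 0 ≤ i)
    (hj : 0 ≤ j) (hiH : i ≤ H) (hjH : j ≤ H) (hd : |i - j| ≤ H)
    (hN : N = 9 * x' ^ 2 * i * j + (i - j) ^ 2) (hxU : x ≤ U) (hxU' : x' ≤ U) :
    4 * N * (9 * x ^ 2 - 4) ^ 2 ≤ 4096 * (U ^ 6 * H ^ 2) := by
  have hU0 : 0 ≤ U := by linarith
  have h1 : N ≤ 10 * x' ^ 2 * H ^ 2 := by
    rw [hN]
    have h2 : (i - j) ^ 2 ≤ 1 * H ^ 2 := by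
      rw [← sq_abs, one_mul]
      gcongr
    have h3 : (1 : ℝ) * H ^ 2 ≤ x' ^ 2 * H ^ 2 := by
      have : 1 ≤ x' ^ 2 := one_le_pow₀ hx'
      gcongr
    have h4 : 9 * x' ^ 2 * i * j ≤ 9 * x' ^ 2 * H * H := by gcongr
    calc 9 * x' ^ 2 * i * j + (i - j) ^ 2 ≤ 9 * x' ^ 2 * H * H + x' ^ 2 * H ^ 2 := by linarith
      _ = 10 * x' ^ 2 * H ^ 2 := by ring
  have h0 : 0 ≤ N := by rw [hN]; positivity
  have h5 : (9 * x ^ 2 - 4) ^ 2 ≤ (9 * x ^ 2) ^ 2 := by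
    rw [← sq_abs]
    have := szD hx
    gcongr
  calc 4 * N * (9 * x ^ 2 - 4) ^ 2 ≤ 4 * (10 * x' ^ 2 * H ^ 2) * (9 * x ^ 2) ^ 2 := by gcongr
    _ ≤ 4 * (10 * U ^ 2 * H ^ 2) * (9 * U ^ 2) ^ 2 := by gcongr
    _ = 3240 * (U ^ 6 * H ^ 2) := by ring
    _ ≤ 4096 * (U ^ 6 * H ^ 2) := by gcongr; norm_num

theorem szH {H : ℝ} (hH : 2 ≤ H) : 4096 * ((H ^ 44) ^ 6 * H ^ 2) ≤ H ^ 290 := by
  have h12 : (2 : ℝ) ^ 12 ≤ H ^ 12 := by gcongr
  have h13 : (2 : ℝ) ^ 12 = 4096 := by norm_num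
  rw [h13] at h12
  calc 4096 * ((H ^ 44) ^ 6 * H ^ 2) ≤ H ^ 12 * ((H ^ 44) ^ 6 * H ^ 2) := by
        apply mul_le_mul_of_nonneg_right h12 (by positivity)
    _ = H ^ 278 := by rw [← pow_mul, ← pow_add, ← pow_add]
    _ ≤ H ^ 290 := pow_le_pow_right₀ (by linarith) (by norm_num)

theorem powH {H : ℝ} (hH : 2 ≤ H) : H * H ≤ H ^ 6 ∧ H * H + H * H ≤ H ^ 6 := by
  have h1 : H ^ 3 ≤ H ^ 6 := pow_le_pow_right₀ (by linarith) (by norm_num)
  have h2 : H * H + H * H ≤ H ^ 3 := by nlinarith [mul_pos (by linarith : 0 < H) (by linarith : 0 < H)]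
  have h3 : 0 < H * H := by positivity
  exact ⟨by linarith, by linarith⟩

theorem pow3 {H : ℝ} (hH : 2 ≤ H) : H * (H * H) ≤ H ^ 6 := by
  have h1 : H ^ 3 ≤ H ^ 6 := pow_le_pow_right₀ (by linarith) (by norm_num)
  have h2 : H * (H * H) = H ^ 3 := by ring
  linarith

theorem pow4 {H : ℝ} (hH : 2 ≤ H) :
    H * (H * H) * H + H * H * H * H + H * (H * H) + H * (H * H) ≤ H ^ 6 := by
  have h1 : H * (H * H) * H + H * H * H * H + H * (H * H) + H * (H * H) =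
      H ^ 3 * (2 * H + 2) := by ring
  have h2 : 2 * H + 2 ≤ H ^ 3 := by nlinarith [mul_nonneg (by linarith : 0 ≤ H - 2) (by linarith : 0 ≤ H)]
  have h3 : 0 < H ^ 3 := by positivity
  calc _ = H ^ 3 * (2 * H + 2) := h1
    _ ≤ H ^ 3 * H ^ 3 := by gcongr
    _ = H ^ 6 := by ring

theorem szla {H : ℝ} (hH : 2 ≤ H) (hu : 1 ≤ u) (h : (u : ℝ) ≤ H ^ 44) : la u ≤ H ^ 290 := by
  have h1 := la_le hu
  have h2 : (2 : ℝ) ^ 2 ≤ H ^ 2 := by gcongr
  calc la u ≤ 3 * (u : ℝ) := h1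
    _ ≤ H ^ 2 * H ^ 44 := by
      apply mul_le_mul (by linarith) h (by have := cast_one_le hu; linarith) (by positivity)
    _ = H ^ 46 := by rw [← pow_add]
    _ ≤ H ^ 290 := pow_le_pow_right₀ (by linarith) (by norm_num)

/-- the ratio as an element of the field -/
theorem alpha_repr {u' : ℤ} {i j i' j' : ℤ} {n : ℕ} (hu : 1 ≤ u) (hu' : 1 ≤ u')
    (hi' : 1 ≤ i') (hj' : 1 ≤ j') (hnw : ww u * ww u' = n) :
    WW u i j * De u' / (WW u' i' j' * De u) * ((4 * NN u' i' j' * (9 * u ^ 2 - 4) ^ 2 : ℤ) : ℝ) =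
      (((9 * u' ^ 2 - 4) * (9 * u ^ 2 - 4) * (9 * u * u' * (i + j) * (i' + j') -
        (i - j) * (i' - j') * n) : ℤ) : ℝ) + (((9 * u' ^ 2 - 4) * (3 * u' * (i' + j') *
        (9 * u ^ 2 - 4) * (i - j) - 3 * u * (i + j) * (i' - j') * n) : ℤ) : ℝ) * ww u := by
  have hW' := WW_ge hu' hi' hj'
  have hD := De_pos hu
  have hcanc : ∀ x y z D D' : ℝ, y ≠ 0 → D ≠ 0 → x * D' / (y * D) * (4 * (y * z) * D ^ 2) =
      4 * x * z * D * D' := by
    intro x y z D D' hy hD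
    field_simp
  have hDe : (9 * (u : ℝ) ^ 2 - 4) = De u := rfl
  have hDe' : (9 * (u' : ℝ) ^ 2 - 4) = De u' := rfl
  have hDw : De u = ww u ^ 2 := by rw [ww_sq hu, hDe]
  push_cast
  rw [hDe, hDe', ← WW_mul hu', hcanc _ _ _ _ _ (by linarith) (by linarith), WW_eq hu, WW_eq hu',
    ← hnw, hDw]
  ring

theorem caseEqSum {C : ℝ} (hk2 : ∀ (u P Q N a b : ℤ) (α H : ℝ), 1 ≤ u → 1 ≤ N →
    0 < α → α * N = P + Q * ww u → 2 ≤ H → la u ≤ H ^ 290 → |(P : ℝ)| ≤ H ^ 290 →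
    |(Q : ℝ)| * ww u ≤ H ^ 290 → (N : ℝ) ≤ H ^ 290 → 1 ≤ b → (b : ℝ) ≤ H ^ 6 →
    |(a : ℝ)| ≤ H ^ 6 → b * Real.log α ≠ a * Real.log (la u) →
    Real.exp (-(C * Real.log H ^ 4)) ≤ |b * Real.log α - a * Real.log (la u)|)
    (h2 : EXA2) {A B u' A' B' i j i' j' : ℤ} {k k' n a b : ℕ} {H P : ℝ}
    (hr : RunD u A B) (hr' : RunD u' A' B') (hH : 2 ≤ H)
    (hPC : (C + 20) * Real.log H ^ 4 ≤ P)
    (hn : (n : ℤ) ^ 2 = (9 * u ^ 2 - 4) * (9 * u' ^ 2 - 4))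
    (hp : PosD u A B k i j u' A' B' k' i' j' H P)
    (hex : WW u i j * Xi u' A' B' ^ 2 * la u' ^ (2 * k' + 1) =
      WW u' i' j' * Xi u A B ^ 2 * la u ^ (2 * k + 1))
    (hb1 : 1 ≤ b) (haH : (a : ℝ) ≤ H) (hbH : (b : ℝ) ≤ H)
    (hab : a * Real.log (la u) = b * Real.log (la u')) (huH : (u : ℝ) ≤ H ^ 44)
    (huH' : (u' : ℝ) ≤ H ^ 44) (hS : i + j = i' + j') :
    (NN u i j : ℝ) * De u' ^ 2 = NN u' i' j' * De u ^ 2 := by
  have hu := run_u hr
  have hu' := run_u hr'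
  have hu1 := cast_one_le hu
  have hu1' := cast_one_le hu'
  have hi1 := hp.i1
  have hj1 := hp.j1
  have hi1' := hp.i1'
  have hj1' := hp.j1'
  have hst := star hr hr' hi1 hj1 hi1' hj1' hex
  have hW := WW_ge hu hi1 hj1
  have hW' := WW_ge hu' hi1' hj1'
  have hD := De_pos hu
  have hD' := De_pos hu'
  have hlin := hp.lin
  unfold LL at hlin
  obtain ⟨p1, p2, p3, p4, p5⟩ := absPar hi1 hj1 hp.iH
  obtain ⟨q1, q2, q3, q4, q5⟩ := absPar hi1' hj1' hp.iH'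
  have hpH := hp.iH
  have hqH := hp.iH'
  have hSr : (i : ℝ) + j = (i' : ℝ) + j' := by exact_mod_cast hS
  have hb1r : (1 : ℝ) ≤ b := by exact_mod_cast hb1
  have ha0 : (0 : ℝ) ≤ a := Nat.cast_nonneg a
  have hH0 : 0 < H := by linarith
  -- the linear form
  have e1 : ((b * (i + j) : ℤ) : ℝ) * Real.log (WW u i j * De u' / (WW u' i' j' * De u)) -
      ((b * (i - j) - a * (i' - j') : ℤ) : ℝ) * Real.log (la u) =
      2 * b * ((((i : ℝ) + j) * tt u A B k + j * Real.log (la u)) -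
        (((i' : ℝ) + j') * tt u' A' B' k' + j' * Real.log (la u'))) := by
    push_cast
    rw [← hSr]
    have h3 : (j' : ℝ) = (i : ℝ) + j - i' := by linarith
    rw [h3]
    linear_combination (-(b : ℝ) * ((i : ℝ) + j)) * hst + (2 * (i' : ℝ) - i - j) * hab
  have e2 : |((b * (i + j) : ℤ) : ℝ) * Real.log (WW u i j * De u' / (WW u' i' j' * De u)) -
      ((b * (i - j) - a * (i' - j') : ℤ) : ℝ) * Real.log (la u)| ≤ 2 * H ^ 2 * Real.exp (-P) := by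
    rw [e1, abs_mul, abs_of_pos (show (0 : ℝ) < 2 * b by positivity)]
    have h3 : (b : ℝ) ≤ H ^ 2 := by nlinarith
    exact mul_le_mul (by linarith) hlin (abs_nonneg _) (by positivity)
  have hbS : 1 ≤ (b : ℤ) * (i + j) := by
    have h3 : (1 : ℤ) ≤ b := by exact_mod_cast hb1
    nlinarith
  refine h2 u u' i j i' j' (b * (i + j)) (b * (i - j) - a * (i' - j')) n hu hu' hi1 hj1 hi1' hj1'
    hn hbS ?_
  by_contra hne
  refine key2_contra hH hPC ?_ e2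
  have hnw := nw hu hu' hn
  have hww := ww_ge hu
  have hww' := ww_ge hu'
  have hwle := ww_le hu
  have hwle' := ww_le hu'
  have hNNpos : 1 ≤ NN u' i' j' := by
    have : (0 : ℝ) < NN u' i' j' := by
      rw [← WW_mul hu']
      have := WW_ge hu' hj1' hi1'
      positivity
    exact_mod_cast this
  have hnle : |(n : ℝ)| ≤ 9 * (u * u') := by
    rw [← hnw, abs_of_pos (by positivity)]
    calc ww u * ww u' ≤ (3 * u) * (3 * u') := by gcongr
      _ = _ := by ring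
  have hSa : |(i : ℝ) + j| ≤ H := by rw [abs_of_pos p1]; exact hpH
  have hSa' : |(i' : ℝ) + j'| ≤ H := by rw [abs_of_pos q1]; exact hqH
  have hH44 := szH hH
  have hpos : 0 < WW u i j * De u' / (WW u' i' j' * De u) := by positivity
  have i'0 : (0 : ℝ) ≤ i' := by exact_mod_cast (by omega : 0 ≤ i')
  have j'0 : (0 : ℝ) ≤ j' := by exact_mod_cast (by omega : 0 ≤ j')
  refine hk2 u _ _ _ _ _ _ H hu ?_ hpos (alpha_repr hu hu' hi1' hj1' hnw) hH (szla hH hu huH)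
    ?_ ?_ ?_ hbS ?_ ?_ hne
  · have h3 : 1 ≤ (9 * u ^ 2 - 4) := by nlinarith
    have h4 : 1 ≤ (9 * u ^ 2 - 4) ^ 2 := one_le_pow₀ h3
    nlinarith
  · refine le_trans ?_ hH44
    push_cast
    exact szP hu1 hu1' hSa hSa' p3 q3 hnle huH huH'
  · refine le_trans ?_ hH44
    push_cast
    exact szQ hu1 hu1' hSa hSa' p3 q3 hnle huH huH' (by linarith) hwle
  · refine le_trans ?_ hH44
    push_cast
    exact szN hu1 hu1' (by linarith) i'0 j'0 q4 q5 q3 (by unfold NN; push_cast; ring) huH huH'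
  · push_cast
    have h3 : (b : ℝ) * (i + j) ≤ H * H := mul_le_mul hbH hpH p1.le hH0.le
    exact h3.trans (powH hH).1
  · push_cast
    have h3 : |(b : ℝ) * (i - j)| ≤ H * H := by
      rw [abs_mul, abs_of_nonneg (by linarith : (0 : ℝ) ≤ b)]
      exact mul_le_mul hbH p3 (abs_nonneg _) hH0.le
    have h5 : |(a : ℝ) * (i' - j')| ≤ H * H := by
      rw [abs_mul, abs_of_nonneg ha0]
      exact mul_le_mul haH q3 (abs_nonneg _) hH0.le
    exact (abs_sub _ _).trans ((add_le_add h3 h5).trans (powH hH).2)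

theorem NN_pos (hu : 1 ≤ u) {i j : ℤ} (hi : 1 ≤ i) (hj : 1 ≤ j) : 0 < NN u i j := by
  have : (0 : ℝ) < NN u i j := by
    rw [← WW_mul hu]
    have := WW_ge hu hj hi
    have := WW_ge hu hi hj
    positivity
  exact_mod_cast this

/-- the norms determine the region in case of an exact relation -/
theorem u_eq_of {u' : ℤ} (hu : 1 ≤ u) (hu' : 1 ≤ u') {N N' : ℤ} (hN : 0 < N) (hN' : 0 < N')
    (h1 : N * u' ^ 4 = N' * u ^ 4) (h2 : (N : ℝ) * De u' ^ 2 = N' * De u ^ 2) : u = u' := by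
  have hu1 := cast_one_le hu
  have hu1' := cast_one_le hu'
  have h3 : (N : ℝ) * u' ^ 4 = N' * u ^ 4 := by exact_mod_cast h1
  have hNr : (0 : ℝ) < N := by exact_mod_cast hN
  have hNr' : (0 : ℝ) < N' := by exact_mod_cast hN'
  have hD := De_pos hu
  have hD' := De_pos hu'
  have h4 : (De u' * (u : ℝ) ^ 2) ^ 2 = (De u * (u' : ℝ) ^ 2) ^ 2 := by
    have h5 : (N : ℝ) * N' * (De u' * (u : ℝ) ^ 2) ^ 2 = N * N' * (De u * (u' : ℝ) ^ 2) ^ 2 := by
      linear_combination (N' * (u : ℝ) ^ 4) * h2 - (N' * De u ^ 2) * h3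
    exact mul_left_cancel₀ (by positivity) h5
  have h5 : De u' * (u : ℝ) ^ 2 = De u * (u' : ℝ) ^ 2 :=
    (pow_left_inj₀ (by positivity) (by positivity) (by norm_num)).1 h4
  unfold De at h5
  have h6 : (u : ℝ) ^ 2 = (u' : ℝ) ^ 2 := by linarith
  have h7 : (u : ℝ) = u' := (pow_left_inj₀ (by positivity) (by positivity) (by norm_num)).1 h6
  exact_mod_cast h7

theorem NN_cancel {u' : ℤ} (hu : 1 ≤ u) {N N' : ℤ} (h : N * u' ^ 4 = N' * u ^ 4) (huu : u = u') :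
    N = N' := by
  subst huu
  exact mul_right_cancel₀ (pow_ne_zero 4 (by omega)) h

/-- irrationality -/
theorem eq_of_WW {i j i' j' : ℤ} (hu : 1 ≤ u) (h : WW u i j = WW u i' j') : i = i' ∧ j = j' := by
  rw [WW_eq hu, WW_eq hu] at h
  have h1 : ((3 * u * (i + j) - 3 * u * (i' + j') : ℤ) : ℝ) +
      (((i - j) - (i' - j') : ℤ) : ℝ) * ww u = 0 := by
    push_cast
    linarith
  obtain ⟨h2, h3⟩ := lin_indep hu h1
  have h4 : 3 * u * ((i + j) - (i' + j')) = 0 := by linarith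
  have h5 : (i + j) - (i' + j') = 0 := by
    rcases mul_eq_zero.1 h4 with h6 | h6
    · omega
    · exact h6
  constructor <;> omega

/-- the two consequences of the relation between the coordinates -/
theorem rel2 {u' i1 j1 i2 j2 i1' j1' i2' j2' : ℤ} {n : ℕ} (hu : 1 ≤ u) (hu' : 1 ≤ u')
    (hnw : ww u * ww u' = n)
    (h : WW u i1 j1 * WW u' i2' j2' = WW u i2 j2 * WW u' i1' j1') :
    (u * n * ((i1 + j1) * (i2' - j2') - (i2 + j2) * (i1' - j1')) =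
      u' * (9 * u ^ 2 - 4) * ((i1' + j1') * (i2 - j2) - (i2' + j2') * (i1 - j1))) ∧
    (9 * u * u' * ((i1 + j1) * (i2' + j2') - (i2 + j2) * (i1' + j1')) +
      n * ((i1 - j1) * (i2' - j2') - (i2 - j2) * (i1' - j1')) = 0) := by
  rw [WW_eq hu, WW_eq hu, WW_eq hu', WW_eq hu'] at h
  have hw := ww_sq hu
  have h1 : ((3 * (u * n * ((i1 + j1) * (i2' - j2') - (i2 + j2) * (i1' - j1'))) -
      3 * (u' * (9 * u ^ 2 - 4) * ((i1' + j1') * (i2 - j2) - (i2' + j2') * (i1 - j1))) : ℤ) : ℝ) +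
      ((9 * u * u' * ((i1 + j1) * (i2' + j2') - (i2 + j2) * (i1' + j1')) +
      n * ((i1 - j1) * (i2' - j2') - (i2 - j2) * (i1' - j1')) : ℤ) : ℝ) * ww u = 0 := by
    push_cast
    rw [← hnw, ← hw]
    linear_combination (4 * ww u) * h
  obtain ⟨h2, h3⟩ := lin_indep hu h1
  exact ⟨by linarith, h3⟩

/-- coprime coordinates with proportional sums and differences agree -/
theorem coprime_eq {i1 j1 i2 j2 : ℤ} (a1 : 1 ≤ i1) (a2 : 1 ≤ j1) (a3 : 1 ≤ i2) (a4 : 1 ≤ j2)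
    (c1 : IsCoprime i1 j1) (c2 : IsCoprime i2 j2)
    (h : (i1 + j1) * (i2 - j2) = (i2 + j2) * (i1 - j1)) : i1 = i2 ∧ j1 = j2 := by
  have h1 : i1 * j2 = i2 * j1 := by linarith
  have h2 : i1 ∣ i2 := by
    have : i1 ∣ i2 * j1 := ⟨j2, h1.symm⟩
    exact c1.dvd_of_dvd_mul_right this
  have h3 : i2 ∣ i1 := by
    have : i2 ∣ i1 * j2 := ⟨j1, h1⟩
    exact c2.dvd_of_dvd_mul_right this
  have h4 : i1 = i2 := Int.dvd_antisymm (by omega) (by omega) h2 h3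
  subst h4
  refine ⟨rfl, ?_⟩
  have : i1 * (j2 - j1) = 0 := by linarith
  rcases mul_eq_zero.1 this with h6 | h6
  · omega
  · omega

/-- the algebraic part of the case of parallel sums -/
theorem paralAlg {u' : ℤ} {i1 j1 i1' j1' i2 j2 i2' j2' : ℤ} {n : ℕ} (hu : 1 ≤ u) (hu' : 1 ≤ u')
    (hnw : ww u * ww u' = n) (hi1 : 1 ≤ i1) (hj1 : 1 ≤ j1) (hi1' : 1 ≤ i1') (hj1' : 1 ≤ j1')
    (hco1 : IsCoprime i1 j1)
    (hNN : NN u i1 j1 * u' ^ 4 = NN u' i1' j1' * u ^ 4)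
    (hi2 : 1 ≤ i2) (hj2 : 1 ≤ j2) (hco : IsCoprime i2 j2) (hne : ¬ (i1 = i2 ∧ j1 = j2))
    (hpair : WW u i1 j1 * WW u' i2' j2' = WW u i2 j2 * WW u' i1' j1')
    (hpar : (i1' + j1') * (i2 + j2) = (i2' + j2') * (i1 + j1)) :
    (i1' + j1') * u = (i1 + j1) * u' ∧
    WW u i1 j1 * De u' / (WW u' i1' j1' * De u) =
      (u : ℝ) ^ 2 * De u' / ((u' : ℝ) ^ 2 * De u) ∧
    (((i1' - j1' : ℤ)) : ℝ) * Real.sqrt (De u') * (u : ℝ) ^ 2 =
      ((i1 - j1 : ℤ) : ℝ) * Real.sqrt (De u) * (u' : ℝ) ^ 2 := by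
  obtain ⟨r1, r2⟩ := rel2 hu hu' hnw hpair
  have hww := ww_ge hu
  have hww' := ww_ge hu'
  have hn0 : (0 : ℝ) < n := by rw [← hnw]; positivity
  have hn1 : (0 : ℤ) < n := by exact_mod_cast hn0
  -- the differences
  have r3 : (i1 - j1) * (i2' - j2') = (i2 - j2) * (i1' - j1') := by
    have e1 : (i1 + j1) * (i2' + j2') - (i2 + j2) * (i1' + j1') = 0 := by linarith
    rw [e1, mul_zero, zero_add] at r2
    rcases mul_eq_zero.1 r2 with h | h
    · omega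
    · linarith
  have hT : (i1 + j1) * (i2 - j2) - (i2 + j2) * (i1 - j1) ≠ 0 := by
    intro h
    exact hne (coprime_eq hi1 hj1 hi2 hj2 hco1 hco (by linarith))
  have r4 : u * n * (i1 + j1) * (i1' - j1') = u' * (9 * u ^ 2 - 4) * (i1' + j1') * (i1 - j1) := by
    refine mul_right_cancel₀ hT ?_
    linear_combination ((i1 + j1) * (i1 - j1)) * r1 - (u * n * (i1 + j1) * (i1 + j1)) * r3 +
      (u' * (9 * u ^ 2 - 4) * (i1 - j1) * (i1 - j1)) * hpar
  have hu1 := cast_one_le hu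
  have hu1' := cast_one_le hu'
  have r5 : (u : ℝ) * n * (i1 + j1) * (i1' - j1') =
      u' * ww u ^ 2 * (i1' + j1') * (i1 - j1) := by
    rw [ww_sq hu]
    exact_mod_cast r4
  have r6 : (u : ℝ) * (i1 + j1) * ((i1' - j1') * ww u') =
      u' * (i1' + j1') * ((i1 - j1) * ww u) := by
    refine mul_left_cancel₀ (by linarith : ww u ≠ 0) ?_
    rw [← hnw] at r5
    linear_combination r5
  have hS1 : (0 : ℝ) < (i1 : ℝ) + j1 := by exact_mod_cast (by omega : 0 < i1 + j1)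
  have hS1' : (0 : ℝ) < (i1' : ℝ) + j1' := by exact_mod_cast (by omega : 0 < i1' + j1')
  have hW := WW_ge hu hi1 hj1
  have hW' := WW_ge hu' hi1' hj1'
  have r7 : (u : ℝ) * (i1 + j1) * WW u' i1' j1' = u' * (i1' + j1') * WW u i1 j1 := by
    rw [WW_eq hu, WW_eq hu']
    linear_combination (1 / 2 : ℝ) * r6
  have r8 : (u : ℝ) * (i1 + j1) * WW u' j1' i1' = u' * (i1' + j1') * WW u j1 i1 := by
    rw [WW_eq hu, WW_eq hu']
    linear_combination (-(1 / 2 : ℝ)) * r6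
  have r9 : ((u : ℝ) * (i1 + j1)) ^ 2 * NN u' i1' j1' = (u' * (i1' + j1')) ^ 2 * NN u i1 j1 := by
    rw [← WW_mul hu, ← WW_mul hu']
    linear_combination (u * (i1 + j1) * WW u' j1' i1') * r7 +
      (u' * (i1' + j1') * WW u i1 j1) * r8
  have hNNr : (NN u i1 j1 : ℝ) * u' ^ 4 = NN u' i1' j1' * u ^ 4 := by exact_mod_cast hNN
  have hNpos : (0 : ℝ) < NN u i1 j1 := by exact_mod_cast NN_pos hu hi1 hj1
  have hup : (0 : ℝ) < u := by linarith
  have hup' : (0 : ℝ) < u' := by linarith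
  have r10 : ((u' : ℝ) * (i1 + j1)) ^ 2 = (u * (i1' + j1')) ^ 2 := by
    have : (NN u i1 j1 : ℝ) * u' ^ 2 * u ^ 2 * ((u' : ℝ) * (i1 + j1)) ^ 2 =
        NN u i1 j1 * u' ^ 2 * u ^ 2 * (u * (i1' + j1')) ^ 2 := by
      linear_combination (u ^ 2 * ((i1 : ℝ) + j1) ^ 2) * hNNr + (u ^ 4 : ℝ) * r9
    exact mul_left_cancel₀ (mul_pos (mul_pos hNpos (pow_pos hup' 2)) (pow_pos hup 2)).ne' this
  have r11 : (u' : ℝ) * (i1 + j1) = u * (i1' + j1') :=
    (pow_left_inj₀ (mul_pos hup' hS1).le (mul_pos hup hS1').le (by norm_num)).1 r10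
  -- the ratio
  have r12 : WW u' i1' j1' * (u : ℝ) ^ 2 = WW u i1 j1 * (u' : ℝ) ^ 2 := by
    refine mul_left_cancel₀ hS1.ne' ?_
    linear_combination (u : ℝ) * r7 + (-(u' : ℝ) * WW u i1 j1) * r11
  have hD := De_pos hu
  have hD' := De_pos hu'
  refine ⟨?_, ?_, ?_⟩
  · have : ((i1' : ℝ) + j1') * u = (i1 + j1) * u' := by linarith
    exact_mod_cast this
  · rw [div_eq_div_iff (mul_pos (by linarith) (by linarith)).ne'
      (mul_pos (pow_pos hup' 2) (by linarith)).ne']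
    linear_combination (-(De u * De u')) * r12
  · change (((i1' - j1' : ℤ)) : ℝ) * ww u' * (u : ℝ) ^ 2 =
      ((i1 - j1 : ℤ) : ℝ) * ww u * (u' : ℝ) ^ 2
    refine mul_left_cancel₀ hS1.ne' ?_
    push_cast
    linear_combination (u : ℝ) * r6 + (-(u' : ℝ) * ((i1 - j1) * ww u)) * r11

/-- the analytic part of the case of parallel sums -/
theorem paralEnd {S S' J J' d d' t t' F F' Λ P L : ℝ} (hS' : 0 < S') (hd : S = 2 * J + d)
    (hd' : S' = 2 * J' + d') (hne : 1 ≤ |S - S'|)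
    (hlin : |S * t + J * F - (S' * t' + J' * F')| ≤ Real.exp (-P))
    (hst : 2 * (t - t') = Λ + F' - F)
    (h1 : |d * F - d' * F'| + S' * |Λ| ≤ 100 * |S - S'| * (1 + F + F')) (htP : P ≤ 16 * t)
    (hF : 69 / 100 ≤ F) (hF' : 69 / 100 ≤ F') (hL : 69 / 100 ≤ L) (hP1 : 3000 * L ≤ P)
    (hP2 : 3000 * F ≤ P) (hP3 : 3000 * F' ≤ P) : False := by
  have e1 : (S - S') * (2 * t + F) =
      2 * (S * t + J * F - (S' * t' + J' * F')) + (d * F - d' * F') - S' * Λ := by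
    linear_combination (-S') * hst + F * hd - F' * hd'
  have ht0 : 0 < 2 * t + F := by linarith
  have e3 : |S' * Λ| = S' * |Λ| := by rw [abs_mul, abs_of_pos hS']
  have e4 : |2 * (S * t + J * F - (S' * t' + J' * F'))| ≤ 2 * Real.exp (-P) := by
    rw [abs_mul, abs_of_pos (by norm_num : (0 : ℝ) < 2)]
    linarith
  have e5 := abs_sub (2 * (S * t + J * F - (S' * t' + J' * F')) + (d * F - d' * F')) (S' * Λ)
  have e6 := abs_add_le (2 * (S * t + J * F - (S' * t' + J' * F'))) (d * F - d' * F')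
  have e2 : |S - S'| * (2 * t + F) ≤ 2 * Real.exp (-P) + 100 * |S - S'| * (1 + F + F') := by
    have e7 : |S - S'| * (2 * t + F) = |(S - S') * (2 * t + F)| := by
      rw [abs_mul, abs_of_pos ht0]
    rw [e7, e1]
    linarith
  have e7 : Real.exp (-P) ≤ 1 / 2 := by
    have h1 : Real.exp (-P) ≤ Real.exp (-1) := by
      rw [Real.exp_le_exp]
      linarith
    have h2 : Real.exp (-1) ≤ 1 / 2 := by
      rw [Real.exp_neg, ← one_div]
      apply one_div_le_one_div_of_le (by norm_num)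
      have := Real.add_one_le_exp (1 : ℝ)
      linarith
    linarith
  generalize |S - S'| = D at hne e2
  have e8 : D * (2 * t + F) ≤ D * (1 + 100 * (1 + F + F')) := by nlinarith
  have e9 : 2 * t + F ≤ 1 + 100 * (1 + F + F') := le_of_mul_le_mul_left e8 (by linarith)
  linarith

theorem log_ge {H : ℝ} (hH : 2 ≤ H) : 69 / 100 ≤ Real.log H := by
  have h1 : Real.log 2 ≤ Real.log H := Real.log_le_log (by norm_num) hH
  have h2 := Real.log_two_gt_d9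
  linarith

/-- the case of parallel sums -/
theorem caseParal (hpl : PARAL) {A B u' A' B' i1 j1 i1' j1' i2 j2 i2' j2' : ℤ} {k k' n : ℕ}
    {H P : ℝ} (hr : RunD u A B) (hr' : RunD u' A' B') (hH : 2 ≤ H)
    (hP1 : 3000 * Real.log H ≤ P) (hP2 : 3000 * Real.log (la u) ≤ P)
    (hP3 : 3000 * Real.log (la u') ≤ P)
    (hn : (n : ℤ) ^ 2 = (9 * u ^ 2 - 4) * (9 * u' ^ 2 - 4))
    (hp : PosD u A B k i1 j1 u' A' B' k' i1' j1' H P)
    (hex : WW u i1 j1 * Xi u' A' B' ^ 2 * la u' ^ (2 * k' + 1) =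
      WW u' i1' j1' * Xi u A B ^ 2 * la u ^ (2 * k + 1))
    (hNN : NN u i1 j1 * u' ^ 4 = NN u' i1' j1' * u ^ 4)
    (hi2 : 1 ≤ i2) (hj2 : 1 ≤ j2) (hco : IsCoprime i2 j2) (hne : ¬ (i1 = i2 ∧ j1 = j2))
    (hpair : WW u i1 j1 * WW u' i2' j2' = WW u i2 j2 * WW u' i1' j1')
    (hS : i1 + j1 ≠ i1' + j1') (hpar : (i1' + j1') * (i2 + j2) = (i2' + j2') * (i1 + j1)) :
    False := by
  have hu := run_u hr
  have hu' := run_u hr'
  have hi1 := hp.i1
  have hj1 := hp.j1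
  have hi1' := hp.i1'
  have hj1' := hp.j1'
  obtain ⟨r11, r13, r14⟩ := paralAlg hu hu' (nw hu hu' hn) hi1 hj1 hi1' hj1' hp.co hNN hi2 hj2 hco
    hne hpair hpar
  have h1 := hpl u u' (i1 + j1) (i1' + j1') (i1 - j1) (i1' - j1') hu hu' (by omega) (by omega)
    (abs_le.2 ⟨by omega, by omega⟩) (abs_le.2 ⟨by omega, by omega⟩) r11 r14
  have hst := star hr hr' hi1 hj1 hi1' hj1' hex
  rw [r13] at hst
  have hlin := hp.lin
  unfold LL at hlin
  push_cast at h1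
  have hSne : (1 : ℝ) ≤ |((i1 : ℝ) + j1) - (i1' + j1')| := by
    have : (1 : ℤ) ≤ |(i1 + j1) - (i1' + j1')| := Int.one_le_abs (sub_ne_zero.2 hS)
    exact_mod_cast this
  exact paralEnd (absPar hi1' hj1' hp.iH').1 (by ring) (by ring) hSne hlin hst h1 hp.tP
    (logla_ge hu) (logla_ge hu') (log_ge hH) hP1 hP2 hP3

theorem X0_repr {A B : ℤ} (hu : 1 ≤ u) :
    X0 u A B * ((2 * (9 * u ^ 2 - 4) : ℤ) : ℝ) = ((3 * A * (9 * u ^ 2 - 4) : ℤ) : ℝ) +
      ((6 * B - 9 * u * A : ℤ) : ℝ) * ww u := by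
  have hww := ww_ge hu
  have hw := ww_sq hu
  have h1 : X0 u A B = Xi u A B / ww u := rfl
  rw [h1]
  unfold Xi
  rw [la_inv hu]
  push_cast
  rw [← hw]
  field_simp
  ring

theorem sz3 {x U H : ℝ} (hx : 1 ≤ x) (hxU : x ≤ U) (hH : 1 ≤ H) :
    27 * x ^ 3 ≤ 4096 * (U ^ 6 * H ^ 2) := by
  have h1 : x ^ 3 ≤ U ^ 3 := by gcongr
  have h2 : U ^ 3 ≤ U ^ 6 := pow_le_pow_right₀ (by linarith) (by norm_num)
  have h3 : (1 : ℝ) ≤ H ^ 2 := one_le_pow₀ hH
  have h4 : 0 < U ^ 6 := pow_pos (by linarith) 6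
  nlinarith

/-- sizes in the remaining case -/
theorem skewSize {S2 S1' S2' J1 J2 J1' J2' a b k E H : ℝ} (hH : 2 ≤ H)
    (q1 : 0 < S1') (qH : S1' ≤ H) (r1 : 0 < S2) (rH : S2 ≤ H) (s1 : 0 < S2') (sH : S2' ≤ H)
    (j1 : 0 ≤ J1) (j1H : J1 ≤ H) (j2 : 0 ≤ J2) (j2H : J2 ≤ H) (j1' : 0 ≤ J1') (j1H' : J1' ≤ H)
    (j2' : 0 ≤ J2') (j2H' : J2' ≤ H) (ha0 : 0 ≤ a) (haH : a ≤ H) (hb0 : 0 ≤ b) (hbH : b ≤ H)
    (hk0 : 0 ≤ k) (hkH : k ≤ H) (hE : |E| ≤ H * H) :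
    |-(b * E * k - S1' * (S2 - S2') * a * b + b * (S2' * J1 - S1' * J2) -
      a * (S2' * J1' - S1' * J2'))| ≤ H ^ 6 := by
  have hH0 : 0 < H := by linarith
  have g1 : |b * E * k| ≤ H * (H * H) * H := by
    rw [abs_mul, abs_mul, abs_of_nonneg hb0, abs_of_nonneg hk0]
    gcongr
  have g2 : |S1' * (S2 - S2') * a * b| ≤ H * H * H * H := by
    rw [abs_mul, abs_mul, abs_mul, abs_of_nonneg hb0, abs_of_nonneg ha0, abs_of_pos q1]
    have : |S2 - S2'| ≤ H := abs_le.2 ⟨by linarith, by linarith⟩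
    gcongr
  have g3 : |b * (S2' * J1 - S1' * J2)| ≤ H * (H * H) := by
    rw [abs_mul, abs_of_nonneg hb0]
    have g4 : S2' * J1 ≤ H * H := mul_le_mul sH j1H j1 hH0.le
    have g5 : S1' * J2 ≤ H * H := mul_le_mul qH j2H j2 hH0.le
    have g6 : 0 ≤ S2' * J1 := mul_nonneg s1.le j1
    have g7 : 0 ≤ S1' * J2 := mul_nonneg q1.le j2
    have : |S2' * J1 - S1' * J2| ≤ H * H := abs_le.2 ⟨by linarith, by linarith⟩
    gcongr
  have g8 : |a * (S2' * J1' - S1' * J2')| ≤ H * (H * H) := by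
    rw [abs_mul, abs_of_nonneg ha0]
    have g4 : S2' * J1' ≤ H * H := mul_le_mul sH j1H' j1' hH0.le
    have g5 : S1' * J2' ≤ H * H := mul_le_mul qH j2H' j2' hH0.le
    have g6 : 0 ≤ S2' * J1' := mul_nonneg s1.le j1'
    have g7 : 0 ≤ S1' * J2' := mul_nonneg q1.le j2'
    have : |S2' * J1' - S1' * J2'| ≤ H * H := abs_le.2 ⟨by linarith, by linarith⟩
    gcongr
  rw [abs_neg]
  have g9 := abs_sub (b * E * k - S1' * (S2 - S2') * a * b + b * (S2' * J1 - S1' * J2))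
    (a * (S2' * J1' - S1' * J2'))
  have g10 := abs_add_le (b * E * k - S1' * (S2 - S2') * a * b) (b * (S2' * J1 - S1' * J2))
  have g11 := abs_sub (b * E * k) (S1' * (S2 - S2') * a * b)
  have g12 := pow4 hH
  linarith

/-- the end of the remaining case -/
theorem skewEnd {C : ℝ} (hk2 : ∀ (u P Q N a b : ℤ) (α H : ℝ), 1 ≤ u → 1 ≤ N →
    0 < α → α * N = P + Q * ww u → 2 ≤ H → la u ≤ H ^ 290 → |(P : ℝ)| ≤ H ^ 290 →
    |(Q : ℝ)| * ww u ≤ H ^ 290 → (N : ℝ) ≤ H ^ 290 → 1 ≤ b → (b : ℝ) ≤ H ^ 6 →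
    |(a : ℝ)| ≤ H ^ 6 → b * Real.log α ≠ a * Real.log (la u) →
    Real.exp (-(C * Real.log H ^ 4)) ≤ |b * Real.log α - a * Real.log (la u)|)
    (h1 : EXA1) {A B : ℤ} {H P : ℝ} (hr : RunD u A B) (hH : 2 ≤ H)
    (hPC : (C + 20) * Real.log H ^ 4 ≤ P) (huH : (u : ℝ) ≤ H ^ 44) (b' c' : ℤ)
    (m1 : 1 ≤ b') (m2 : (b' : ℝ) ≤ H ^ 6) (m3 : |(c' : ℝ)| ≤ H ^ 6)
    (m4 : |(b' : ℝ) * Real.log (X0 u A B) - c' * Real.log (la u)| ≤ 2 * H ^ 2 * Real.exp (-P)) :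
    False := by
  have hu := run_u hr
  have hu1 := cast_one_le hu
  have hww := ww_ge hu
  have hwle := ww_le hu
  have hH44 := szH hH
  have hsz3 := sz3 hu1 huH (by linarith : (1 : ℝ) ≤ H)
  have hr0 := hr
  obtain ⟨hA1, hAu, hB1, hBu, -⟩ := hr0
  have A1 : (1 : ℝ) ≤ A := by exact_mod_cast hA1
  have A2 : (A : ℝ) ≤ u := by exact_mod_cast hAu
  have B1 : (1 : ℝ) ≤ B := by exact_mod_cast hB1
  have B2 : (B : ℝ) ≤ u := by exact_mod_cast hBu
  refine key2_contra hH hPC ?_ m4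
  have hD1 : 1 ≤ 9 * u ^ 2 - 4 := by nlinarith
  refine hk2 u _ _ _ _ _ _ H hu ?_ (X0_pos hr)
    (X0_repr hu) hH (szla hH hu huH) ?_ ?_ ?_ m1 m2 m3 (h1 u A B b' c' hr m1)
  · omega
  · refine le_trans ?_ hH44
    refine le_trans ?_ hsz3
    push_cast
    rw [abs_mul, abs_of_pos (by linarith : (0 : ℝ) < 3 * A)]
    have := szD hu1
    calc 3 * (A : ℝ) * |9 * (u : ℝ) ^ 2 - 4| ≤ 3 * u * (9 * u ^ 2) := by gcongr
      _ = 27 * (u : ℝ) ^ 3 := by ring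
  · refine le_trans ?_ hH44
    refine le_trans ?_ hsz3
    push_cast
    have g1 : |6 * (B : ℝ) - 9 * u * A| ≤ 9 * u ^ 2 := by
      have g2 : (u : ℝ) * A ≤ u * u := by gcongr
      have g3 : 0 ≤ (u : ℝ) * A := by positivity
      exact abs_le.2 ⟨by nlinarith, by nlinarith⟩
    calc |6 * (B : ℝ) - 9 * u * A| * ww u ≤ 9 * u ^ 2 * (3 * u) := by gcongr
      _ = 27 * (u : ℝ) ^ 3 := by ring
  · refine le_trans ?_ hH44
    refine le_trans ?_ hsz3
    push_cast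
    have : (u : ℝ) ^ 2 ≤ u ^ 3 := pow_le_pow_right₀ hu1 (by norm_num)
    nlinarith

/-- the remaining case -/
theorem caseSkew {C : ℝ} (hk2 : ∀ (u P Q N a b : ℤ) (α H : ℝ), 1 ≤ u → 1 ≤ N →
    0 < α → α * N = P + Q * ww u → 2 ≤ H → la u ≤ H ^ 290 → |(P : ℝ)| ≤ H ^ 290 →
    |(Q : ℝ)| * ww u ≤ H ^ 290 → (N : ℝ) ≤ H ^ 290 → 1 ≤ b → (b : ℝ) ≤ H ^ 6 →
    |(a : ℝ)| ≤ H ^ 6 → b * Real.log α ≠ a * Real.log (la u) →
    Real.exp (-(C * Real.log H ^ 4)) ≤ |b * Real.log α - a * Real.log (la u)|)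
    (h1 : EXA1) {A B u' A' B' i1 j1 i1' j1' i2 j2 i2' j2' : ℤ} {k k' a b : ℕ} {H P : ℝ}
    (hr : RunD u A B) (hH : 2 ≤ H)
    (hPC : (C + 20) * Real.log H ^ 4 ≤ P)
    (hp1 : PosD u A B k i1 j1 u' A' B' k' i1' j1' H P)
    (hp2 : PosD u A B (k + a) i2 j2 u' A' B' (k' + b) i2' j2' H P)
    (hb1 : 1 ≤ b) (haH : (a : ℝ) ≤ H) (hbH : (b : ℝ) ≤ H)
    (hab : a * Real.log (la u) = b * Real.log (la u')) (huH : (u : ℝ) ≤ H ^ 44)
    (hpar : (i1' + j1') * (i2 + j2) ≠ (i2' + j2') * (i1 + j1)) : False := by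
  obtain ⟨p1, -, -, -, p5⟩ := absPar hp1.i1 hp1.j1 hp1.iH
  obtain ⟨q1, -, -, -, q5⟩ := absPar hp1.i1' hp1.j1' hp1.iH'
  obtain ⟨r1, -, -, -, r5⟩ := absPar hp2.i1 hp2.j1 hp2.iH
  obtain ⟨s1, -, -, -, s5⟩ := absPar hp2.i1' hp2.j1' hp2.iH'
  have pH := hp1.iH
  have qH := hp1.iH'
  have rH := hp2.iH
  have sH := hp2.iH'
  have hlin1 := hp1.lin
  have hlin2 := hp2.lin
  unfold LL at hlin1 hlin2
  have t1 : tt u A B (k + a) = tt u A B k + a * Real.log (la u) := by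
    unfold tt
    push_cast
    ring
  have t2 : tt u' A' B' (k' + b) = tt u' A' B' k' + b * Real.log (la u') := by
    unfold tt
    push_cast
    ring
  have t3 : tt u A B k = Real.log (X0 u A B) + k * Real.log (la u) := rfl
  have hkH := hp1.nH
  -- the linear combination
  obtain ⟨E, hE⟩ : ∃ E : ℤ, E = (i2' + j2') * (i1 + j1) - (i1' + j1') * (i2 + j2) := ⟨_, rfl⟩
  have hE0 : E ≠ 0 := by
    rw [hE]
    exact sub_ne_zero.2 (Ne.symm hpar)
  obtain ⟨c, hc⟩ : ∃ c : ℤ, c = -(b * E * k - (i1' + j1') * ((i2 + j2) - (i2' + j2')) * a * b +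
      b * ((i2' + j2') * j1 - (i1' + j1') * j2) - a * ((i2' + j2') * j1' - (i1' + j1') * j2')) :=
    ⟨_, rfl⟩
  have e1 : ((b * E : ℤ) : ℝ) * Real.log (X0 u A B) - c * Real.log (la u) =
      b * (i2' + j2') * (((i1 : ℝ) + j1) * tt u A B k + j1 * Real.log (la u) -
        (((i1' : ℝ) + j1') * tt u' A' B' k' + j1' * Real.log (la u'))) -
      b * (i1' + j1') * (((i2 : ℝ) + j2) * tt u A B (k + a) + j2 * Real.log (la u) -
        (((i2' : ℝ) + j2') * tt u' A' B' (k' + b) + j2' * Real.log (la u'))) := by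
    rw [hc, hE, t1, t2, t3]
    push_cast
    linear_combination (-(((i2' : ℝ) + j2') * j1' - (i1' + j1') * j2') +
      b * (i1' + j1') * (i2' + j2')) * hab
  have hH0 : 0 < H := by linarith
  have hb0 : (0 : ℝ) ≤ b := Nat.cast_nonneg b
  have ha0 : (0 : ℝ) ≤ a := Nat.cast_nonneg a
  have hk0 : (0 : ℝ) ≤ k := Nat.cast_nonneg k
  have hε := Real.exp_pos (-P)
  have e2 : |((b * E : ℤ) : ℝ) * Real.log (X0 u A B) - c * Real.log (la u)| ≤
      2 * H ^ 2 * Real.exp (-P) := by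
    rw [e1]
    refine (abs_sub _ _).trans ?_
    rw [abs_mul (b * ((i2' : ℝ) + j2')), abs_mul (b * ((i1' : ℝ) + j1')),
      abs_of_nonneg (mul_nonneg hb0 s1.le), abs_of_nonneg (mul_nonneg hb0 q1.le)]
    have w1 : (b : ℝ) * (i2' + j2') ≤ H * H := mul_le_mul hbH sH s1.le hH0.le
    have w2 : (b : ℝ) * (i1' + j1') ≤ H * H := mul_le_mul hbH qH q1.le hH0.le
    have w3 := mul_le_mul w1 hlin1 (abs_nonneg _) (by positivity)
    have w4 := mul_le_mul w2 hlin2 (abs_nonneg _) (by positivity)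
    calc _ ≤ (H * H) * Real.exp (-P) + (H * H) * Real.exp (-P) := add_le_add w3 w4
      _ = 2 * H ^ 2 * Real.exp (-P) := by ring
  -- sizes
  have hEle : |(E : ℝ)| ≤ H * H := by
    rw [hE]
    push_cast
    have g1 : ((i2' : ℝ) + j2') * (i1 + j1) ≤ H * H := mul_le_mul sH pH p1.le hH0.le
    have g2 : ((i1' : ℝ) + j1') * (i2 + j2) ≤ H * H := mul_le_mul qH rH r1.le hH0.le
    have g3 : 0 < ((i2' : ℝ) + j2') * (i1 + j1) := mul_pos s1 p1
    have g4 : 0 < ((i1' : ℝ) + j1') * (i2 + j2) := mul_pos q1 r1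
    exact abs_le.2 ⟨by linarith, by linarith⟩
  have j1p : (1 : ℝ) ≤ j1 := by exact_mod_cast hp1.j1
  have j1p' : (1 : ℝ) ≤ j1' := by exact_mod_cast hp1.j1'
  have j2p : (1 : ℝ) ≤ j2 := by exact_mod_cast hp2.j1
  have j2p' : (1 : ℝ) ≤ j2' := by exact_mod_cast hp2.j1'
  have hcle : |(c : ℝ)| ≤ H ^ 6 := by
    rw [hc]
    push_cast
    exact skewSize hH q1 qH r1 rH s1 sH (by linarith) p5 (by linarith) r5 (by linarith) q5
      (by linarith) s5 ha0 haH hb0 hbH hk0 hkH hEle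
  have hbE : |((b * E : ℤ) : ℝ)| ≤ H ^ 6 := by
    push_cast
    rw [abs_mul, abs_of_nonneg hb0]
    have g1 : (b : ℝ) * |(E : ℝ)| ≤ H * (H * H) := mul_le_mul hbH hEle (abs_nonneg _) hH0.le
    exact g1.trans (pow3 hH)
  have hb1z : (1 : ℤ) ≤ b := by exact_mod_cast hb1
  rcases lt_or_gt_of_ne hE0 with h | h
  · refine skewEnd hk2 h1 hr hH hPC huH (-(b * E)) (-c) ?_ ?_ ?_ ?_
    · nlinarith
    · push_cast
      refine le_trans (neg_le_abs _) ?_
      exact_mod_cast hbE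
    · push_cast
      rw [abs_neg]
      exact hcle
    · have g1 : ((-(b * E) : ℤ) : ℝ) * Real.log (X0 u A B) - ((-c : ℤ) : ℝ) * Real.log (la u) =
          -(((b * E : ℤ) : ℝ) * Real.log (X0 u A B) - c * Real.log (la u)) := by
        push_cast
        ring
      rw [g1, abs_neg]
      exact e2
  · refine skewEnd hk2 h1 hr hH hPC huH (b * E) c ?_ ?_ hcle e2
    · nlinarith
    · exact (le_abs_self _).trans hbE

theorem sameOf (ha : ARTANH) (he : EQREG) {A B u' A' B' i j i' j' : ℤ} {k k' : ℕ} {H P : ℝ}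
    (hr : RunD u A B) (hr' : RunD u' A' B') (hH : 2 ≤ H) (hP1 : 3000 * Real.log H ≤ P)
    (hp : PosD u A B k i j u' A' B' k' i' j' H P)
    (hex : WW u i j * Xi u' A' B' ^ 2 * la u' ^ (2 * k' + 1) =
      WW u' i' j' * Xi u A B ^ 2 * la u ^ (2 * k + 1))
    (hNN : NN u i j * u' ^ 4 = NN u' i' j' * u ^ 4) (huu : u = u')
    (hc : i + j = i' + j' ∨ ((i - j) ^ 2 < 9 * u ^ 2 ∧ (i' - j') ^ 2 < 9 * u ^ 2)) :
    SameP u A B k i j u' A' B' k' i' j' := by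
  subst huu
  have hu := run_u hr
  have h1 : NN u i j = NN u i' j' := mul_right_cancel₀ (pow_ne_zero 4 (by omega)) hNN
  exact twoPrime ha hr hr' hH hP1 hp hex rfl
    (he u i j i' j' hu hp.i1 hp.j1 hp.i1' hp.j1' h1 hc)

theorem dist_coords {A B u' A' B' i1 j1 i1' j1' i2 j2 i2' j2' : ℤ} {k k' a b : ℕ} {H P : ℝ}
    (hr : RunD u A B) (hr' : RunD u' A' B') (hH : 2 ≤ H) (hP1 : 3000 * Real.log H ≤ P)
    (hp1 : PosD u A B k i1 j1 u' A' B' k' i1' j1' H P)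
    (hp2 : PosD u A B (k + a) i2 j2 u' A' B' (k' + b) i2' j2' H P) (ha1 : 1 ≤ a)
    (hab : a * Real.log (la u) = b * Real.log (la u'))
    (hpair : WW u i1 j1 * WW u' i2' j2' = WW u i2 j2 * WW u' i1' j1')
    (hS : i1 + j1 ≠ i1' + j1') : ¬ (i1 = i2 ∧ j1 = j2) := by
  rintro ⟨rfl, rfl⟩
  have hu := run_u hr
  have hu' := run_u hr'
  have hW := WW_ge hu hp1.i1 hp1.j1
  have h1 : WW u' i2' j2' = WW u' i1' j1' := mul_left_cancel₀ (by linarith) hpair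
  obtain ⟨h2, h3⟩ := eq_of_WW hu' h1
  subst h2
  subst h3
  have hlin1 := hp1.lin
  have hlin2 := hp2.lin
  unfold LL at hlin1 hlin2
  have t1 : tt u A B (k + a) = tt u A B k + a * Real.log (la u) := by
    unfold tt
    push_cast
    ring
  have t2 : tt u' A' B' (k' + b) = tt u' A' B' k' + b * Real.log (la u') := by
    unfold tt
    push_cast
    ring
  rw [t1, t2, ← hab] at hlin2
  have hF := logla_ge hu
  have ha1r : (1 : ℝ) ≤ a := by exact_mod_cast ha1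
  have hSne : (1 : ℝ) ≤ |((i1 : ℝ) + j1) - (i2' + j2')| := by
    have : (1 : ℤ) ≤ |(i1 + j1) - (i2' + j2')| := Int.one_le_abs (sub_ne_zero.2 hS)
    exact_mod_cast this
  have e1 : |(((i1 : ℝ) + j1) - (i2' + j2')) * (a * Real.log (la u))| ≤ 2 * Real.exp (-P) := by
    have e2 : (((i1 : ℝ) + j1) - (i2' + j2')) * (a * Real.log (la u)) =
        (((i1 : ℝ) + j1) * (tt u A B k + a * Real.log (la u)) + j1 * Real.log (la u) -
          (((i2' : ℝ) + j2') * (tt u' A' B' k' + a * Real.log (la u)) + j2' * Real.log (la u'))) -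
        (((i1 : ℝ) + j1) * tt u A B k + j1 * Real.log (la u) -
          (((i2' : ℝ) + j2') * tt u' A' B' k' + j2' * Real.log (la u'))) := by ring
    rw [e2]
    refine (abs_sub _ _).trans ?_
    linarith
  rw [abs_mul, abs_of_pos (by positivity : (0 : ℝ) < a * Real.log (la u))] at e1
  have e3 : 1 * (1 * (69 / 100 : ℝ)) ≤
      |((i1 : ℝ) + j1) - (i2' + j2')| * (a * Real.log (la u)) := by gcongr
  have e4 := eps_small' hH hP1
  have e5 := Real.exp_pos (-P)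
  nlinarith

/-- **Two positions.** -/
theorem twopos_of (hp : PAIR) (hs : SINGLE) (hl : LARGE) (he : EQREG) (ha : ARTANH) (hq : PARAL)
    (h1 : EXA1) (h2 : EXA2) (ht : TWOLOG) : TWOPOS := by
  obtain ⟨C2, hC2, hk2⟩ := key2 ht
  refine ⟨max 3000 (C2 + 20), le_trans (by norm_num) (le_max_left _ _), ?_⟩
  intro u A B u' A' B' i1 j1 i2 j2 i1' j1' i2' j2' n1 n2 n1' n2' H P hr hr' hn hn' hH hP1 hP2 hP3
    hP4 hP5 hP6 hq1 hq2 hlev
  have hu := run_u hr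
  have hu' := run_u hr'
  obtain ⟨a, rfl⟩ : ∃ a, n2 = n1 + a := ⟨n2 - n1, by omega⟩
  obtain ⟨b, rfl⟩ : ∃ b, n2' = n1' + b := ⟨n2' - n1', by omega⟩
  have ha1 : 1 ≤ a := by omega
  have hb1 : 1 ≤ b := by omega
  have hlog := log_ge hH
  have c1 : (3000 : ℝ) ≤ max 3000 (C2 + 20) := le_max_left _ _
  have c2 : C2 + 20 ≤ max 3000 (C2 + 20) := le_max_right _ _
  have F0 := logla_ge hu
  have F0' := logla_ge hu'
  have ea : (((n1 + a : ℕ) : ℝ) - n1) = a := by push_cast; ring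
  have eb : (((n1' + b : ℕ) : ℝ) - n1') = b := by push_cast; ring
  rw [ea] at hP4 hlev
  rw [eb] at hP5 hlev
  have a0 : (0 : ℝ) ≤ a := Nat.cast_nonneg a
  have b0 : (0 : ℝ) ≤ b := Nat.cast_nonneg b
  have P1 : 3000 * Real.log H ≤ P := le_trans (mul_le_mul_of_nonneg_right c1 (by linarith)) hP1
  have P2 : 3000 * Real.log (la u) ≤ P :=
    le_trans (mul_le_mul_of_nonneg_right c1 (by linarith)) hP2
  have P3 : 3000 * Real.log (la u') ≤ P :=
    le_trans (mul_le_mul_of_nonneg_right c1 (by linarith)) hP3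
  have P4 : 3000 * (a * Real.log (la u)) ≤ P :=
    le_trans (mul_le_mul_of_nonneg_right c1 (mul_nonneg a0 (by linarith))) hP4
  have P5 : 3000 * (b * Real.log (la u')) ≤ P :=
    le_trans (mul_le_mul_of_nonneg_right c1 (mul_nonneg b0 (by linarith))) hP5
  have P6 : (C2 + 20) * Real.log H ^ 4 ≤ P :=
    le_trans (mul_le_mul_of_nonneg_right c2 (pow_nonneg (by linarith) 4)) hP6
  obtain ⟨hpair, n, hnn⟩ := pair_exact hp hr hr' ha1 hb1 hH P1 P2 P3 P4 P5 hq1 hq2 hlev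
  obtain ⟨x1, N1⟩ := single_exact hs hr hr' hnn hH P1 P2 P3 hq1
  obtain ⟨x2, N2⟩ := single_exact hs hr hr' hnn hH P1 P2 P3 hq2
  -- the integer bound
  obtain ⟨K, hK⟩ : ∃ K : ℤ, K = ⌈H⌉ := ⟨_, rfl⟩
  have hK1 : H ≤ K := by rw [hK]; exact Int.le_ceil H
  have hK2 : (K : ℝ) ≤ H + 1 := by rw [hK]; exact (Int.ceil_lt_add_one H).le
  have hK3 : 2 ≤ K := by exact_mod_cast hH.trans hK1
  have k1 : i1 + j1 ≤ K := by exact_mod_cast hq1.iH.trans hK1
  have k1' : i1' + j1' ≤ K := by exact_mod_cast hq1.iH'.trans hK1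
  obtain ⟨L1, L2⟩ := hl u u' i1 j1 i1' j1' K n hu hu' hq1.i1 hq1.j1 hq1.i1' hq1.j1' hK3 k1 k1'
    hnn N1
  by_cases hbig : K ^ 20 ≤ u
  · left
    have huu := L1 hbig
    have hKu : K ≤ u := (le_self_pow₀ (by omega) (by norm_num)).trans hbig
    have hi1 := hq1.i1
    have hj1 := hq1.j1
    have hi1' := hq1.i1'
    have hj1' := hq1.j1'
    refine sameOf ha he hr hr' hH P1 hq1 x1 N1 huu (Or.inr ⟨?_, ?_⟩)
    · have := mul_nonneg (by omega : 0 ≤ K - (i1 - j1)) (by omega : 0 ≤ K + (i1 - j1))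
      nlinarith
    · have := mul_nonneg (by omega : 0 ≤ K - (i1' - j1')) (by omega : 0 ≤ K + (i1' - j1'))
      nlinarith
  push Not at hbig
  have hH1 : (1 : ℝ) ≤ H := by linarith
  have hKr0 : (0 : ℝ) < K := by linarith
  have hKH : (K : ℝ) ≤ H ^ 2 := by nlinarith
  have hu40 : (u : ℝ) ≤ H ^ 40 := by
    have e1 : (u : ℝ) ≤ (K : ℝ) ^ 20 := by exact_mod_cast hbig.le
    have e2 : (K : ℝ) ^ 20 ≤ (H ^ 2) ^ 20 := pow_le_pow_left₀ hKr0.le hKH 20
    rw [← pow_mul] at e2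
    exact e1.trans e2
  have hub : (u : ℝ) ≤ H ^ 44 := hu40.trans (pow_le_pow_right₀ hH1 (by norm_num))
  have hub' : (u' : ℝ) ≤ H ^ 44 := by
    have e1 : (u' : ℝ) ^ 2 ≤ 10 * K ^ 2 * u ^ 2 := by exact_mod_cast L2
    have e2 : (K : ℝ) ^ 2 ≤ (H ^ 2) ^ 2 := pow_le_pow_left₀ hKr0.le hKH 2
    have e3 : (u : ℝ) ^ 2 ≤ (H ^ 40) ^ 2 :=
      pow_le_pow_left₀ (by have := cast_one_le hu; linarith) hu40 2
    have e4 : (2 : ℝ) ^ 4 ≤ H ^ 4 := pow_le_pow_left₀ (by norm_num) hH 4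
    have e5 : (u' : ℝ) ^ 2 ≤ (H ^ 44) ^ 2 := by
      calc (u' : ℝ) ^ 2 ≤ 10 * K ^ 2 * u ^ 2 := e1
        _ ≤ H ^ 4 * (H ^ 2) ^ 2 * (H ^ 40) ^ 2 := by
          have e6 : (10 : ℝ) ≤ H ^ 4 := by norm_num at e4; linarith
          have e7 : 0 ≤ H ^ 4 := by positivity
          exact mul_le_mul (mul_le_mul e6 e2 (by positivity) e7) e3 (by positivity) (by positivity)
        _ = (H ^ 44) ^ 2 := by
          rw [← pow_mul, ← pow_mul, ← pow_mul, ← pow_add, ← pow_add]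
    exact (pow_le_pow_iff_left₀ (by have := cast_one_le hu'; linarith) (by positivity)
      (by norm_num)).1 e5
  have haH : (a : ℝ) ≤ H := by
    have := hq2.nH
    push_cast at this
    have h0 : (0 : ℝ) ≤ n1 := Nat.cast_nonneg n1
    linarith
  have hbH : (b : ℝ) ≤ H := by
    have := hq2.nH'
    push_cast at this
    have h0 : (0 : ℝ) ≤ n1' := Nat.cast_nonneg n1'
    linarith
  by_cases s1 : i1 + j1 = i1' + j1'
  · left
    have e1 := caseEqSum hk2 h2 hr hr' hH P6 hnn hq1 x1 hb1 haH hbH hlev hub hub' s1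
    have huu := u_eq_of hu hu' (NN_pos hu hq1.i1 hq1.j1) (NN_pos hu' hq1.i1' hq1.j1') N1 e1
    exact sameOf ha he hr hr' hH P1 hq1 x1 N1 huu (Or.inl s1)
  by_cases s2 : i2 + j2 = i2' + j2'
  · right
    have e1 := caseEqSum hk2 h2 hr hr' hH P6 hnn hq2 x2 hb1 haH hbH hlev hub hub' s2
    have huu := u_eq_of hu hu' (NN_pos hu hq2.i1 hq2.j1) (NN_pos hu' hq2.i1' hq2.j1') N2 e1
    exact sameOf ha he hr hr' hH P1 hq2 x2 N2 huu (Or.inl s2)
  exfalso
  have hne := dist_coords hr hr' hH P1 hq1 hq2 ha1 hlev hpair s1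
  by_cases hpar : (i1' + j1') * (i2 + j2) = (i2' + j2') * (i1 + j1)
  · exact caseParal hq hr hr' hH P1 P2 P3 hnn hq1 x1 N1 hq2.i1 hq2.j1 hq2.co hne hpair s1 hpar
  · exact caseSkew hk2 h1 hr hH P6 hq1 hq2 hb1 haH hbH hlev hub hpar

end

end Pool.Agent.N937.MX2
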