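import Pool.Agent.N347.LA.Stm2

/-! Project LA (helper347), subtask LA/TWM, proved by helper937 from the statements
`twin_quotient`, `hasState_J`, `cov_of_state`. -/

namespace Pool.Agent.N937.LACOV_TWIN

open Finset Pool.Agent.N347.LA

set_option autoImplicit false

open Classical in
theorem nbr_card {V W : Type} [Fintype V] [Fintype W] (G : SimpleGraph W) (R : V → V → Prop)
    (f : W → V) (hG : ∀ x y, G.Adj x y ↔ x ≠ y ∧ R (f x) (f y)) (x : W) :
    (G.neighborSet x).ncard = wdeg R (fun v => {x | f x = v}.ncard) (f x) := by
  have h1 : G.neighborSet x = ((univ.filter (fun y => x ≠ y ∧ R (f x) (f y)) : Finset W) : Set W) := by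
    ext y
    simp [SimpleGraph.mem_neighborSet, hG]
  rw [h1, Set.ncard_coe_finset]
  have h2 : ((univ.filter (fun y => x ≠ y ∧ R (f x) (f y)) : Finset W)).card
      = ∑ u, ((univ.filter (fun y => x ≠ y ∧ R (f x) (f y)) : Finset W).filter
          (fun y => f y = u)).card :=
    Finset.card_eq_sum_card_fiberwise (fun y _ => by simp)
  rw [h2]
  unfold wdeg
  apply Finset.sum_congr rfl
  intro u _
  rw [Finset.filter_filter]
  split_ifs with hR hu
  · subst hu
    have h3 : (univ.filter (fun y => (x ≠ y ∧ R (f x) (f y)) ∧ f y = f x) : Finset W)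
        = (univ.filter (fun y => f y = f x)).erase x := by
      ext y
      simp only [mem_filter, mem_univ, true_and, mem_erase]
      constructor
      · rintro ⟨⟨h, _⟩, h'⟩
        exact ⟨fun e => h e.symm, h'⟩
      · rintro ⟨h, h'⟩
        refine ⟨⟨fun e => h e.symm, ?_⟩, h'⟩
        rw [h']
        exact hR
    rw [h3, Finset.card_erase_of_mem (by simp)]
    congr 1
    have h4 : ({y | f y = f x} : Set W) = ((univ.filter (fun y => f y = f x) : Finset W) : Set W) := by
      ext y
      simp
    show _ = ({y | f y = f x} : Set W).ncard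
    rw [h4, Set.ncard_coe_finset]
  · have h3 : (univ.filter (fun y => (x ≠ y ∧ R (f x) (f y)) ∧ f y = u) : Finset W)
        = univ.filter (fun y => f y = u) := by
      ext y
      simp only [mem_filter, mem_univ, true_and]
      constructor
      · rintro ⟨_, h'⟩
        exact h'
      · intro h'
        refine ⟨⟨?_, ?_⟩, h'⟩
        · rintro rfl
          exact hu h'
        · rw [h']
          exact hR
    rw [h3]
    have h4 : ({y | f y = u} : Set W) = ((univ.filter (fun y => f y = u) : Finset W) : Set W) := by
      ext y
      simp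
    show _ = ({y | f y = u} : Set W).ncard
    rw [h4, Set.ncard_coe_finset]
  · rw [Finset.card_eq_zero, Finset.filter_eq_empty_iff]
    rintro y _ ⟨⟨_, h⟩, rfl⟩
    exact hR h

open Classical in
/-- LA/TWM -/
theorem cov_twin {W : Type} [Fintype W] (G : SimpleGraph W) (k : ℕ)
    (hd : ∀ v, (G.neighborSet v).ncard + 1 ≤ 2 * k)
    (hz : ∀ v, 2 * k ≤ ∑ w ∈ univ.filter (fun w => Relation.ReflTransGen (Link G k) v w),
      (2 * k - (G.neighborSet w).ncard)) : H931R3.LA.Cov G k := by
  obtain ⟨V, hV, R, f, hR, hsurj, hG, htw⟩ := Stm2.twin_quotient G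
  set τ : V → ℕ := fun v => {x | f x = v}.ncard with hτdef
  have hcard : ∀ v, τ v = (univ.filter (fun y => f y = v) : Finset W).card := by
    intro v
    have h4 : ({y | f y = v} : Set W) = ((univ.filter (fun y => f y = v) : Finset W) : Set W) := by
      ext y
      simp
    simp only [hτdef]
    rw [h4, Set.ncard_coe_finset]
  have hτ : ∀ v, 1 ≤ τ v := by
    intro v
    rw [hcard]
    obtain ⟨x, hx⟩ := hsurj v
    exact Finset.card_pos.2 ⟨x, by simp [hx]⟩
  have htau : ∀ x, tau G x = τ (f x) := by
    intro x
    unfold tau
    simp only [hτdef]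
    congr 1
    ext w
    simp only [Set.mem_ofPred_eq]
    rw [← htw]
    exact eq_comm
  have hdeg : ∀ x, (G.neighborSet x).ncard = wdeg R τ (f x) := fun x => nbr_card G R f hG x
  set J : V → V → ℕ := fun u v => if u ≠ v ∧ R u v ∧ 2 * k ≤ τ u * τ v then 2 else 0 with hJ
  have hJpos : ∀ u v, 0 < J u v ↔ u ≠ v ∧ R u v ∧ 2 * k ≤ τ u * τ v := by
    intro u v
    simp only [hJ]
    split_ifs with h
    · simp only [Nat.ofNat_pos, true_iff]
      exact h
    · simp only [lt_self_iff_false, false_iff]
      exact h
  have hreach : ∀ x y, Relation.ReflTransGen (Link G k) x y ↔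
      Relation.ReflTransGen (fun u v => 0 < J u v) (f x) (f y) := by
    intro x y
    constructor
    · intro h
      induction h with
      | refl => exact Relation.ReflTransGen.refl
      | tail _ hbc ih =>
        rename_i b c _
        by_cases hfe : f b = f c
        · rw [← hfe]
          exact ih
        · refine ih.tail ?_
          rcases hbc with h | ⟨h1, h2⟩
          · exact absurd ((htw b c).2 h) hfe
          · rw [hJpos]
            refine ⟨hfe, ((hG b c).1 h1).2, ?_⟩
            rw [← htau, ← htau]
            exact h2
    · intro h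
      have key : ∀ v, Relation.ReflTransGen (fun u v => 0 < J u v) (f x) v →
          ∀ y, f y = v → Relation.ReflTransGen (Link G k) x y := by
        intro v hv
        induction hv with
        | refl =>
          intro y hy
          exact Relation.ReflTransGen.single (Or.inl ((htw x y).1 hy.symm))
        | tail _ hbc ih =>
          rename_i b c _
          intro y hy
          obtain ⟨y', hy'⟩ := hsurj b
          refine (ih y' hy').tail ?_
          obtain ⟨hne, hRbc, h2⟩ := (hJpos b c).1 hbc
          right
          constructor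
          · rw [hG]
            refine ⟨?_, ?_⟩
            · rintro rfl
              exact hne (hy'.symm.trans hy)
            · rw [hy', hy]
              exact hRbc
          · rw [htau, htau, hy', hy]
            exact h2
      exact key _ h y rfl
  refine Stm2.cov_of_state R hR k τ f (fun v => rfl) G hG ?_
  refine Stm2.hasState_J R hR k τ hτ J ?_ ?_ ?_ ?_ ?_ ?_
  · intro u v
    simp only [hJ]
    congr 1
    rw [eq_iff_iff]
    constructor
    · rintro ⟨h1, h2, h3⟩
      exact ⟨fun e => h1 e.symm, hR _ _ h2, by rw [mul_comm (τ _)]; exact h3⟩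
    · rintro ⟨h1, h2, h3⟩
      exact ⟨fun e => h1 e.symm, hR _ _ h2, by rw [mul_comm (τ _)]; exact h3⟩
  · intro v
    simp [hJ]
  · intro v
    apply Finset.even_sum
    intro u _
    simp only [hJ]
    split_ifs
    · exact even_two
    · exact Even.zero
  · intro u v
    simp only [hJ]
    split_ifs with h
    · unfold mul
      rw [if_pos h.2.1, if_neg h.1, mul_comm]
      exact h.2.2
    · simp
  · intro v
    obtain ⟨x, rfl⟩ := hsurj v
    rw [← hdeg]
    have := hd x
    omega
  · intro v
    obtain ⟨x, rfl⟩ := hsurj v
    refine le_trans (hz x) (le_of_eq ?_)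
    have e1 : ∑ w ∈ univ.filter (fun w => Relation.ReflTransGen (Link G k) x w),
        (2 * k - (G.neighborSet w).ncard)
        = ∑ w : W, (fun u : V => if Relation.ReflTransGen (fun a b => 0 < J a b) (f x) u
            then (2 * k - wdeg R τ u) else 0) (f w) := by
      rw [Finset.sum_filter]
      apply Finset.sum_congr rfl
      intro w _
      simp only [hreach x w, hdeg w]
    rw [e1, ← Finset.sum_fiberwise (s := (univ : Finset W)) (g := f), Finset.sum_filter]
    apply Finset.sum_congr rfl
    intro u _
    rw [Finset.sum_congr rfl (g := fun _ => (if Relation.ReflTransGen (fun a b => 0 < J a b) (f x) u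
            then (2 * k - wdeg R τ u) else 0))]
    · rw [Finset.sum_const, ← hcard u]
      split_ifs <;> simp
    · intro w hw
      simp only [mem_filter, mem_univ, true_and] at hw
      simp only [hw]

end Pool.Agent.N937.LACOV_TWIN
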